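import Pool.Agent.R311.BS.WC

set_option autoImplicit false

/-! Poisson summation for Gaussian weights on arithmetic progressions. -/

namespace Pool.Agent.R311.AP

open Finset MeasureTheory Filter Topology
open Pool.Agent.H306R2 Pool.Agent.R311.BS

noncomputable section

/-- the average of `exp(ixt)` over the progression with Gaussian weights -/
def Dl (α β τ H x : ℝ) : ℂ := (α : ℂ) * ∑' k : ℤ, ex x (α * k + β) * (gw τ H (α * k + β) : ℂ)

/-- terms of the dual sum -/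
def dt (α β τ H x : ℝ) (m : ℤ) : ℂ :=
  (gq H (2 * Real.pi / α * m - x) : ℂ) * ex 1 (x * τ + 2 * Real.pi / α * m * (β - τ))

lemma gauss_id (α β τ H x : ℝ) (hH : 0 < H) (k : ℤ) :
    ex x (α * k + β) * (gw τ H (α * k + β) : ℂ) =
    (Complex.exp (-((β - τ) ^ 2 / H ^ 2 : ℝ) + (x * β : ℝ) * Complex.I) / ((H * Real.sqrt Real.pi : ℝ) : ℂ)) *
      Complex.exp (-Real.pi * ((α ^ 2 / (Real.pi * H ^ 2) : ℝ) : ℂ) * (k : ℂ) ^ 2 +
        2 * Real.pi * (((-(α * (β - τ)) / (Real.pi * H ^ 2) : ℝ) : ℂ) + ((x * α / (2 * Real.pi) : ℝ) : ℂ) * Complex.I) * k) := by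
  have hpi : (Real.pi : ℂ) ≠ 0 := by exact_mod_cast Real.pi_ne_zero
  have hHc : (H : ℂ) ≠ 0 := by exact_mod_cast hH.ne'
  have hpos : ((H * Real.sqrt Real.pi : ℝ) : ℂ) ≠ 0 := by
    have : 0 < H * Real.sqrt Real.pi := by positivity
    exact_mod_cast this.ne'
  unfold ex gw
  rw [Complex.ofReal_div, Complex.ofReal_exp, mul_div_assoc', div_mul_eq_mul_div, ← Complex.exp_add,
    ← Complex.exp_add]
  congr 2
  push_cast
  field_simp
  ring

theorem poisson (α β τ H x : ℝ) (hα : 0 < α) (hH : 0 < H) :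
    Dl α β τ H x = ∑' m : ℤ, dt α β τ H x m := by
  have hpi0 := Real.pi_pos
  have hpi : (Real.pi : ℂ) ≠ 0 := by exact_mod_cast Real.pi_ne_zero
  have hHc : (H : ℂ) ≠ 0 := by exact_mod_cast hH.ne'
  have hαc : (α : ℂ) ≠ 0 := by exact_mod_cast hα.ne'
  have ha0 : 0 < α ^ 2 / (Real.pi * H ^ 2) := by positivity
  have ha : 0 < ((α ^ 2 / (Real.pi * H ^ 2) : ℝ) : ℂ).re := by rwa [Complex.ofReal_re]
  unfold Dl
  simp only [gauss_id α β τ H x hH]
  rw [tsum_mul_left, Complex.tsum_exp_neg_quadratic ha]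
  have hsq : ((α ^ 2 / (Real.pi * H ^ 2) : ℝ) : ℂ) ^ (1 / 2 : ℂ) = ((α / (H * Real.sqrt Real.pi) : ℝ) : ℂ) := by
    rw [show (1 / 2 : ℂ) = ((1 / 2 : ℝ) : ℂ) by push_cast; rfl, ← Complex.ofReal_cpow ha0.le,
      ← Real.sqrt_eq_rpow]
    congr 1
    rw [Real.sqrt_div (by positivity), Real.sqrt_sq hα.le, Real.sqrt_mul hpi0.le, Real.sqrt_sq hH.le,
      mul_comm]
  rw [hsq]
  have hs0 : (0:ℝ) < Real.sqrt Real.pi := Real.sqrt_pos.mpr hpi0
  have hsc : ((Real.sqrt Real.pi : ℝ) : ℂ) ≠ 0 := by exact_mod_cast hs0.ne'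
  have e1 : (α : ℂ) * (Complex.exp (-((β - τ) ^ 2 / H ^ 2 : ℝ) + (x * β : ℝ) * Complex.I) /
      ((H * Real.sqrt Real.pi : ℝ) : ℂ) * (1 / ((α / (H * Real.sqrt Real.pi) : ℝ) : ℂ) *
      ∑' n : ℤ, Complex.exp (-Real.pi / ((α ^ 2 / (Real.pi * H ^ 2) : ℝ) : ℂ) *
        (n + Complex.I * (((-(α * (β - τ)) / (Real.pi * H ^ 2) : ℝ) : ℂ) +
          ((x * α / (2 * Real.pi) : ℝ) : ℂ) * Complex.I)) ^ 2))) =
      Complex.exp (-((β - τ) ^ 2 / H ^ 2 : ℝ) + (x * β : ℝ) * Complex.I) *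
      ∑' n : ℤ, Complex.exp (-Real.pi / ((α ^ 2 / (Real.pi * H ^ 2) : ℝ) : ℂ) *
        (n + Complex.I * (((-(α * (β - τ)) / (Real.pi * H ^ 2) : ℝ) : ℂ) +
          ((x * α / (2 * Real.pi) : ℝ) : ℂ) * Complex.I)) ^ 2) := by
    generalize (∑' n : ℤ, Complex.exp (-Real.pi / ((α ^ 2 / (Real.pi * H ^ 2) : ℝ) : ℂ) *
        (n + Complex.I * (((-(α * (β - τ)) / (Real.pi * H ^ 2) : ℝ) : ℂ) +
          ((x * α / (2 * Real.pi) : ℝ) : ℂ) * Complex.I)) ^ 2)) = S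
    push_cast
    field_simp
  rw [e1, ← tsum_mul_left]
  refine tsum_congr fun m => ?_
  unfold dt gq ex
  rw [Complex.ofReal_exp, ← Complex.exp_add, ← Complex.exp_add]
  congr 1
  push_cast
  have hI := Complex.I_sq
  have e2 : ((m : ℂ) + Complex.I * (-(α * (β - τ)) / (Real.pi * H ^ 2) + x * α / (2 * Real.pi) * Complex.I)) =
      (m - x * α / (2 * Real.pi)) - Complex.I * (α * (β - τ) / (Real.pi * H ^ 2)) := by
    linear_combination (x * α / (2 * Real.pi)) * hI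
  rw [e2]
  have e3 : ((m - x * α / (2 * Real.pi)) - Complex.I * (α * (β - τ) / (Real.pi * H ^ 2)) : ℂ) ^ 2 =
      (m - x * α / (2 * Real.pi)) ^ 2 - (α * (β - τ) / (Real.pi * H ^ 2)) ^ 2 -
      2 * Complex.I * (m - x * α / (2 * Real.pi)) * (α * (β - τ) / (Real.pi * H ^ 2)) := by
    linear_combination (α * (β - τ) / (Real.pi * H ^ 2)) ^ 2 * hI
  rw [e3]
  field_simp
  ring

lemma dt_norm (α β τ H x : ℝ) (m : ℤ) : ‖dt α β τ H x m‖ = gq H (2 * Real.pi / α * m - x) := by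
  unfold dt
  rw [norm_mul, ex_norm, mul_one, Complex.norm_real, Real.norm_of_nonneg (gq_nonneg _ _)]

/-- the terms away from the nearest multiple -/
lemma far_terms (h H x : ℝ) (hh : 0 < h) (hH : 0 < H) (hy : 1 ≤ H ^ 2 * h ^ 2 / 16) (m : ℤ)
    (hm : m ≠ round (x / h)) :
    gq H (h * m - x) ≤ Real.exp (-(H ^ 2 * h ^ 2 / 16)) * lam (m - round (x / h)) := by
  set m₀ := round (x / h) with hm₀
  set y := H ^ 2 * h ^ 2 / 16 with hydef
  have hj : m - m₀ ≠ 0 := by omega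
  have hlam : lam (m - m₀) = 1 / ((m - m₀ : ℤ) : ℝ) ^ 2 := by
    unfold lam
    rw [if_neg hj]
  have h1 : |x / h - m₀| ≤ 1 / 2 := abs_sub_round _
  have h2 : |x - h * m₀| ≤ h / 2 := by
    have : x - h * m₀ = h * (x / h - m₀) := by field_simp
    rw [this, abs_mul, abs_of_pos hh]
    nlinarith
  have hj1 : (1:ℝ) ≤ |((m - m₀ : ℤ) : ℝ)| := by
    have : (1:ℤ) ≤ |m - m₀| := Int.one_le_abs hj
    exact_mod_cast this
  have h3 : h * |((m - m₀ : ℤ) : ℝ)| / 2 ≤ |h * m - x| := by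
    have e : h * ((m - m₀ : ℤ) : ℝ) = (h * m - x) + (x - h * m₀) := by push_cast; ring
    have h4 : h * |((m - m₀ : ℤ) : ℝ)| ≤ |h * m - x| + |x - h * m₀| := by
      rw [← abs_of_pos hh, ← abs_mul, abs_of_pos hh, e]
      exact abs_add_le _ _
    nlinarith
  have h4 : y * |((m - m₀ : ℤ) : ℝ)| ^ 2 ≤ H ^ 2 * (h * m - x) ^ 2 / 4 := by
    rw [← sq_abs (h * m - x)]
    have : (h * |((m - m₀ : ℤ) : ℝ)| / 2) ^ 2 ≤ |h * m - x| ^ 2 := pow_le_pow_left₀ (by positivity) h3 2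
    calc y * |((m - m₀ : ℤ) : ℝ)| ^ 2 = H ^ 2 * (h * |((m - m₀ : ℤ) : ℝ)| / 2) ^ 2 / 4 := by
          rw [hydef]; ring
      _ ≤ H ^ 2 * |h * m - x| ^ 2 / 4 := by gcongr
  rw [hlam]
  unfold gq
  have hs : (0:ℝ) < ((m - m₀ : ℤ) : ℝ) ^ 2 := by
    rw [← sq_abs]; positivity
  rw [sq_abs] at h4
  have hs1 : (1:ℝ) ≤ ((m - m₀ : ℤ) : ℝ) ^ 2 := by
    rw [← sq_abs]
    exact one_le_pow₀ hj1
  set s := ((m - m₀ : ℤ) : ℝ) ^ 2 with hsdef
  have h5 : Real.exp (-(H ^ 2 * (h * m - x) ^ 2 / 4)) ≤ Real.exp (-y) * Real.exp (-(s - 1)) := by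
    rw [← Real.exp_add]
    apply Real.exp_le_exp.mpr
    nlinarith
  have h6 : Real.exp (-(s - 1)) ≤ 1 / s := by
    rw [Real.exp_neg, ← one_div]
    apply one_div_le_one_div_of_le hs
    have := Real.add_one_le_exp (s - 1)
    linarith
  exact h5.trans (mul_le_mul_of_nonneg_left h6 (Real.exp_pos _).le)

lemma lam_shift_summable (c : ℤ) : Summable fun m : ℤ => lam (m - c) := by
  have := (Equiv.subRight c).summable_iff.mpr lam_summable
  exact this

lemma gq_summable (h H x : ℝ) (hh : 0 < h) (hH : 0 < H) (hy : 1 ≤ H ^ 2 * h ^ 2 / 16) :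
    Summable fun m : ℤ => gq H (h * m - x) := by
  refine Summable.of_nonneg_of_le (fun m => gq_nonneg _ _) (fun m => ?_)
    ((lam_shift_summable (round (x / h))))
  by_cases hm : m = round (x / h)
  · rw [hm, sub_self]
    have e : lam 0 = 1 := by unfold lam; simp
    rw [e]
    exact gq_le_one _ _
  · refine (far_terms h H x hh hH hy m hm).trans ?_
    have h1 : Real.exp (-(H ^ 2 * h ^ 2 / 16)) ≤ 1 := by
      rw [Real.exp_le_one_iff]; linarith
    have h2 := lam_nonneg (m - round (x / h))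
    nlinarith

/-- bound for the tail of the dual sum -/
lemma dual_tail (h H x : ℝ) (hh : 0 < h) (hH : 0 < H) (hy : 1 ≤ H ^ 2 * h ^ 2 / 16) :
    ∑' m : ℤ, (if m = round (x / h) then 0 else gq H (h * m - x)) ≤
      Lam * Real.exp (-(H ^ 2 * h ^ 2 / 16)) := by
  have hs := (lam_shift_summable (round (x / h))).mul_left (Real.exp (-(H ^ 2 * h ^ 2 / 16)))
  have hle : ∀ m : ℤ, (if m = round (x / h) then 0 else gq H (h * m - x)) ≤
      Real.exp (-(H ^ 2 * h ^ 2 / 16)) * lam (m - round (x / h)) := by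
    intro m
    split_ifs with hm
    · exact mul_nonneg (Real.exp_pos _).le (lam_nonneg _)
    · exact far_terms h H x hh hH hy m hm
  have h0 : ∀ m : ℤ, 0 ≤ (if m = round (x / h) then 0 else gq H (h * m - x)) := by
    intro m
    split_ifs
    · exact le_refl _
    · exact gq_nonneg _ _
  have hs2 : Summable fun m : ℤ => (if m = round (x / h) then 0 else gq H (h * m - x)) :=
    Summable.of_nonneg_of_le h0 hle hs
  refine (hs2.tsum_le_tsum hle hs).trans ?_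
  rw [tsum_mul_left, mul_comm]
  have e : ∑' m : ℤ, lam (m - round (x / h)) = Lam := by
    unfold Lam
    exact (Equiv.subRight (round (x / h))).tsum_eq lam
  rw [e]

/-- the average at a frequency -/
theorem Dl_approx (α β τ H x : ℝ) (hα : 0 < α) (hH : 0 < H)
    (hy : 1 ≤ H ^ 2 * (2 * Real.pi / α) ^ 2 / 16) :
    ‖Dl α β τ H x - dt α β τ H x (round (x / (2 * Real.pi / α)))‖ ≤
      Lam * Real.exp (-(H ^ 2 * (2 * Real.pi / α) ^ 2 / 16)) := by
  set h := 2 * Real.pi / α with hh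
  have hh0 : 0 < h := by positivity
  have hs : Summable fun m : ℤ => dt α β τ H x m := by
    refine Summable.of_norm_bounded (gq_summable h H x hh0 hH hy) fun m => ?_
    rw [dt_norm]
  have hs2 : Summable fun m : ℤ => ‖dt α β τ H x m‖ := hs.norm
  rw [poisson α β τ H x hα hH, hs.tsum_eq_add_tsum_ite (round (x / h)), add_sub_cancel_left]
  refine (norm_tsum_le_tsum_norm ?_).trans ?_
  · refine Summable.of_nonneg_of_le (fun m => norm_nonneg _) (fun m => ?_) hs2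
    split_ifs
    · simp
    · exact le_refl _
  · refine le_trans (le_of_eq ?_) (dual_tail h H x hh0 hH hy)
    refine tsum_congr fun m => ?_
    split_ifs
    · simp
    · rw [dt_norm]

theorem Dl_near (α β τ H x : ℝ) (hα : 0 < α) (hH : 0 < H)
    (hy : 1 ≤ H ^ 2 * (2 * Real.pi / α) ^ 2 / 16) :
    ‖Dl α β τ H x‖ ≤ 1 + Lam * Real.exp (-(H ^ 2 * (2 * Real.pi / α) ^ 2 / 16)) := by
  have h1 := Dl_approx α β τ H x hα hH hy
  have h2 := norm_sub_norm_le (Dl α β τ H x) (dt α β τ H x (round (x / (2 * Real.pi / α))))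
  rw [dt_norm] at h2
  have h3 := gq_le_one H (2 * Real.pi / α * round (x / (2 * Real.pi / α)) - x)
  linarith

theorem Dl_far (α β τ H x ρ : ℝ) (hα : 0 < α) (hH : 0 < H) (hρ : 0 ≤ ρ)
    (hy : 1 ≤ H ^ 2 * (2 * Real.pi / α) ^ 2 / 16)
    (hx : ∀ m : ℤ, ρ ≤ |2 * Real.pi / α * m - x|) :
    ‖Dl α β τ H x‖ ≤ gq H ρ + Lam * Real.exp (-(H ^ 2 * (2 * Real.pi / α) ^ 2 / 16)) := by
  have h1 := Dl_approx α β τ H x hα hH hy
  have h2 := norm_sub_norm_le (Dl α β τ H x) (dt α β τ H x (round (x / (2 * Real.pi / α))))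
  rw [dt_norm] at h2
  have h3 := gq_far H _ ρ hρ (hx (round (x / (2 * Real.pi / α))))
  linarith

theorem Dl_zero (α β τ H : ℝ) (hα : 0 < α) (hH : 0 < H)
    (hy : 1 ≤ H ^ 2 * (2 * Real.pi / α) ^ 2 / 16) :
    ‖Dl α β τ H 0 - 1‖ ≤ Lam * Real.exp (-(H ^ 2 * (2 * Real.pi / α) ^ 2 / 16)) := by
  have h1 := Dl_approx α β τ H 0 hα hH hy
  have e : dt α β τ H 0 (round ((0:ℝ) / (2 * Real.pi / α))) = 1 := by
    rw [zero_div, round_zero]
    unfold dt gq ex
    simp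
  rwa [e] at h1

end

end Pool.Agent.R311.AP
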