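import Pool.Agent.R311.AP.P

set_option autoImplicit false

/-! Mean values over arithmetic progressions. -/

namespace Pool.Agent.R311.AP

open Finset MeasureTheory Filter Topology
open Pool.Agent.H306R2 Pool.Agent.R311.BS

noncomputable section

lemma gq_summable' (h H x : ℝ) (hh : 0 < h) (hH : 0 < H) : Summable fun m : ℤ => gq H (h * m - x) := by
  refine Summable.of_nonneg_of_le (fun m => gq_nonneg _ _) (fun m => ?_)
    ((lam_shift_summable (round (x / h))).mul_left (1 + 16 / (H ^ 2 * h ^ 2)))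
  set m₀ := round (x / h) with hm₀
  have hpos : 0 ≤ 16 / (H ^ 2 * h ^ 2) := by positivity
  by_cases hm : m = m₀
  · rw [hm, sub_self]
    have e : lam 0 = 1 := by unfold lam; simp
    rw [e]
    have := gq_le_one H (h * m₀ - x)
    linarith
  · have hj : m - m₀ ≠ 0 := by omega
    have hlam : lam (m - m₀) = 1 / ((m - m₀ : ℤ) : ℝ) ^ 2 := by
      unfold lam
      rw [if_neg hj]
    have h1 : |x / h - m₀| ≤ 1 / 2 := abs_sub_round _
    have h2 : |x - h * m₀| ≤ h / 2 := by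
      have : x - h * m₀ = h * (x / h - m₀) := by field_simp
      rw [this, abs_mul, abs_of_pos hh]
      nlinarith
    have hj1 : (1:ℝ) ≤ |((m - m₀ : ℤ) : ℝ)| := by
      have : (1:ℤ) ≤ |m - m₀| := Int.one_le_abs hj
      exact_mod_cast this
    have h3 : h * |((m - m₀ : ℤ) : ℝ)| / 2 ≤ |h * m - x| := by
      have e : h * ((m - m₀ : ℤ) : ℝ) = (h * m - x) + (x - h * m₀) := by push_cast; ring
      have h4 : h * |((m - m₀ : ℤ) : ℝ)| ≤ |h * m - x| + |x - h * m₀| := by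
        rw [← abs_of_pos hh, ← abs_mul, abs_of_pos hh, e]
        exact abs_add_le _ _
      nlinarith
    have hs : (0:ℝ) < ((m - m₀ : ℤ) : ℝ) ^ 2 := by
      rw [← sq_abs]; positivity
    have h4 : H ^ 2 * h ^ 2 / 16 * ((m - m₀ : ℤ) : ℝ) ^ 2 ≤ H ^ 2 * (h * m - x) ^ 2 / 4 := by
      rw [← sq_abs (h * m - x), ← sq_abs (((m - m₀ : ℤ) : ℝ))]
      have : (h * |((m - m₀ : ℤ) : ℝ)| / 2) ^ 2 ≤ |h * m - x| ^ 2 := pow_le_pow_left₀ (by positivity) h3 2
      calc H ^ 2 * h ^ 2 / 16 * |((m - m₀ : ℤ) : ℝ)| ^ 2 = H ^ 2 * (h * |((m - m₀ : ℤ) : ℝ)| / 2) ^ 2 / 4 := by ring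
        _ ≤ H ^ 2 * |h * m - x| ^ 2 / 4 := by gcongr
    rw [hlam]
    unfold gq
    set y := H ^ 2 * (h * m - x) ^ 2 / 4 with hy
    have hy0 : 0 < H ^ 2 * h ^ 2 / 16 * ((m - m₀ : ℤ) : ℝ) ^ 2 := by positivity
    have h5 : Real.exp (-y) ≤ 1 / y := by
      rw [Real.exp_neg, ← one_div]
      apply one_div_le_one_div_of_le (by linarith)
      have := Real.add_one_le_exp y
      linarith
    have h6 : 1 / y ≤ 1 / (H ^ 2 * h ^ 2 / 16 * ((m - m₀ : ℤ) : ℝ) ^ 2) := one_div_le_one_div_of_le hy0 h4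
    have h7 : 1 / (H ^ 2 * h ^ 2 / 16 * ((m - m₀ : ℤ) : ℝ) ^ 2) =
        16 / (H ^ 2 * h ^ 2) * (1 / ((m - m₀ : ℤ) : ℝ) ^ 2) := by field_simp
    have h8 : 0 ≤ 1 / ((m - m₀ : ℤ) : ℝ) ^ 2 := by positivity
    calc Real.exp (-y) ≤ 16 / (H ^ 2 * h ^ 2) * (1 / ((m - m₀ : ℤ) : ℝ) ^ 2) := by
          rw [← h7]; exact h5.trans h6
      _ ≤ _ := by nlinarith

lemma gw_eq_gq (α β τ H : ℝ) (hH : 0 < H) (k : ℤ) :
    gw τ H (α * k + β) = gq (2 / H) (α * k - (τ - β)) / (H * Real.sqrt Real.pi) := by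
  unfold gw gq
  congr 2
  field_simp
  ring

lemma gwk_summable (α β τ H : ℝ) (hα : 0 < α) (hH : 0 < H) :
    Summable fun k : ℤ => gw τ H (α * k + β) := by
  simp only [gw_eq_gq α β τ H hH]
  exact (gq_summable' α (2 / H) (τ - β) hα (by positivity)).div_const _

/-- bounded functions are summable against the weights -/
lemma bdd_summable (α β τ H : ℝ) (hα : 0 < α) (hH : 0 < H) (φ : ℤ → ℂ) (B : ℝ) (hφ : ∀ k, ‖φ k‖ ≤ B) :
    Summable fun k : ℤ => φ k * (gw τ H (α * k + β) : ℂ) := by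
  refine Summable.of_norm_bounded ((gwk_summable α β τ H hα hH).mul_left B) fun k => ?_
  rw [norm_mul, Complex.norm_real, Real.norm_of_nonneg (gw_nonneg _ _ _ hH)]
  exact mul_le_mul_of_nonneg_right (hφ k) (gw_nonneg _ _ _ hH)

/-- the total mass -/
lemma mass_le (α β τ H : ℝ) (hα : 0 < α) (hH : 0 < H)
    (hy : 1 ≤ H ^ 2 * (2 * Real.pi / α) ^ 2 / 16) :
    α * ∑' k : ℤ, gw τ H (α * k + β) ≤ 1 + Lam * Real.exp (-(H ^ 2 * (2 * Real.pi / α) ^ 2 / 16)) := by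
  have h1 := Dl_near α β τ H 0 hα hH hy
  have e : Dl α β τ H 0 = ((α * ∑' k : ℤ, gw τ H (α * k + β) : ℝ) : ℂ) := by
    unfold Dl
    push_cast
    congr 1
    refine tsum_congr fun k => ?_
    unfold ex
    simp
  rw [e, Complex.norm_real, Real.norm_eq_abs] at h1
  exact (le_abs_self _).trans h1

theorem ap_expansion (α β τ H : ℝ) (hα : 0 < α) (hH : 0 < H) (f g : ℕ → ℝ) (X Y : ℝ) :
    (α : ℂ) * ∑' k : ℤ, (Dp f X (1 / 2 + ((α * k + β : ℝ) : ℂ) * Complex.I) *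
      (starRingEnd ℂ) (Dp g Y (1 / 2 + ((α * k + β : ℝ) : ℂ) * Complex.I))) * (gw τ H (α * k + β) : ℂ) =
    ∑ n ∈ Icc 1 ⌊X⌋₊, ∑ l ∈ Icc 1 ⌊Y⌋₊,
      (((f n * (Real.sqrt n)⁻¹ : ℝ) : ℂ) * ((g l * (Real.sqrt l)⁻¹ : ℝ) : ℂ)) *
        Dl α β τ H (Real.log l - Real.log n) := by
  have e : (fun k : ℤ => (Dp f X (1 / 2 + ((α * k + β : ℝ) : ℂ) * Complex.I) *
      (starRingEnd ℂ) (Dp g Y (1 / 2 + ((α * k + β : ℝ) : ℂ) * Complex.I))) * (gw τ H (α * k + β) : ℂ)) =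
      fun k : ℤ => ∑ n ∈ Icc 1 ⌊X⌋₊, ∑ l ∈ Icc 1 ⌊Y⌋₊,
      (((f n * (Real.sqrt n)⁻¹ : ℝ) : ℂ) * ((g l * (Real.sqrt l)⁻¹ : ℝ) : ℂ)) *
        (ex (Real.log l - Real.log n) (α * k + β) * (gw τ H (α * k + β) : ℂ)) := by
    funext k
    rw [Dp_line, Dp_line_conj, sum_mul_sum, sum_mul]
    refine sum_congr rfl fun n _ => ?_
    rw [sum_mul]
    refine sum_congr rfl fun l _ => ?_
    rw [show Real.log l - Real.log n = -Real.log n + Real.log l by ring, ex_add]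
    ring
  have hs : ∀ x : ℝ, Summable fun k : ℤ => ex x (α * k + β) * (gw τ H (α * k + β) : ℂ) := fun x =>
    bdd_summable α β τ H hα hH _ 1 fun k => (ex_norm _ _).le
  rw [e, Summable.tsum_finsetSum (fun n _ => summable_sum fun l _ => (hs _).mul_left _), mul_sum]
  refine sum_congr rfl fun n _ => ?_
  rw [Summable.tsum_finsetSum (fun l _ => (hs _).mul_left _), mul_sum]
  refine sum_congr rfl fun l _ => ?_
  rw [tsum_mul_left]
  unfold Dl
  ring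

/-- far frequencies contribute little to the near sums -/
theorem NN_large (f g : ℕ → ℝ) (X Y ρ ω C Ω σ : ℝ) (hσ0 : 0 ≤ σ) (hσ1 : σ ≤ 1) (hC : 0 ≤ C) (hX : 1 ≤ X) (hY : 1 ≤ Y) (hρ : 0 < ρ) (hρ1 : ρ ≤ 1 / 2)
    (hf : ∀ n : ℕ, 1 ≤ n → |f n| * (Real.sqrt n)⁻¹ ≤ C * (n:ℝ) ^ (-σ))
    (hΩ : Y * Real.exp 1 ≤ Real.exp Ω) (hω : Ω ≤ |ω|) :
    NN f g X Y ρ ω ≤ l1 g Y * (2 * C * (9 * ρ * X ^ (1 - σ) + Real.exp (-(Ω * σ)))) := by
  have hB0 : 0 ≤ 2 * C * (9 * ρ * X ^ (1 - σ) + Real.exp (-(Ω * σ))) := by positivity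
  unfold NN
  rw [sum_comm]
  unfold l1
  rw [sum_mul]
  refine sum_le_sum fun l hl => ?_
  rw [mem_Icc] at hl
  have hl0 : (0:ℝ) < l := by exact_mod_cast hl.1
  have hlY : (l:ℝ) ≤ Y := (Nat.cast_le.mpr hl.2).trans (Nat.floor_le (by linarith))
  have hl1 : (1:ℝ) ≤ l := by exact_mod_cast hl.1
  rw [← sum_filter]
  set S := (Icc 1 ⌊X⌋₊).filter (fun n : ℕ => |ω - Real.log n + Real.log l| < ρ) with hS
  rcases S.eq_empty_or_nonempty with h0 | ⟨n0, hn0⟩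
  · rw [h0, sum_empty]
    exact mul_nonneg (abs_nonneg _) hB0
  -- ω is positive
  have hmem : ∀ n ∈ S, 1 ≤ n ∧ (n:ℝ) ≤ X ∧ |ω - Real.log n + Real.log l| < ρ := by
    intro n hn
    rw [hS, mem_filter, mem_Icc] at hn
    exact ⟨hn.1.1, (Nat.cast_le.mpr hn.1.2).trans (Nat.floor_le (by linarith)), hn.2⟩
  obtain ⟨b1, b2, b3⟩ := hmem n0 hn0
  have hω0 : 0 < ω := by
    by_contra hneg
    rw [not_lt] at hneg
    rw [abs_of_nonpos hneg] at hω
    rw [abs_lt] at b3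
    have h1 : 0 ≤ Real.log n0 := Real.log_natCast_nonneg n0
    have h2 : Ω - 1 / 2 < Real.log l := by linarith
    have h3 : Real.log l ≤ Real.log Y := Real.log_le_log hl0 hlY
    have h4 : Real.log Y + 1 ≤ Ω := by
      have := Real.log_le_log (by positivity) hΩ
      rw [Real.log_exp, Real.log_mul (by linarith) (Real.exp_ne_zero _), Real.log_exp] at this
      exact this
    linarith
  rw [abs_of_pos hω0] at hω
  set c := l * Real.exp ω with hc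
  have hc0 : 0 < c := by positivity
  have hcΩ : Real.exp Ω ≤ c := by
    calc Real.exp Ω ≤ Real.exp ω := Real.exp_le_exp.mpr hω
      _ ≤ c := by rw [hc]; nlinarith [Real.exp_pos ω]
  have hlogc : Real.log c = Real.log l + ω := by
    rw [hc, Real.log_mul hl0.ne' (Real.exp_ne_zero _), Real.log_exp]
  have hrange : ∀ n ∈ S, c * Real.exp (-ρ) ≤ n ∧ (n:ℝ) ≤ c * Real.exp ρ := by
    intro n hn
    obtain ⟨d1, d2, d3⟩ := hmem n hn
    have hn0' : (0:ℝ) < n := by exact_mod_cast d1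
    rw [abs_lt] at d3
    constructor
    · rw [← Real.log_le_log_iff (by positivity) hn0', Real.log_mul hc0.ne' (Real.exp_ne_zero _),
        Real.log_exp, hlogc]
      linarith
    · rw [← Real.log_le_log_iff hn0' (by positivity), Real.log_mul hc0.ne' (Real.exp_ne_zero _),
        Real.log_exp, hlogc]
      linarith
  have hexpρ : Real.exp ρ ≤ 2 := by
    have h1 : Real.exp ρ ≤ Real.exp (1 / 2) := Real.exp_le_exp.mpr hρ1
    have h2 : Real.exp (1 / 2) ≤ 2 := by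
      have h3 : Real.exp (1 / 2) ^ 2 = Real.exp 1 := by
        rw [← Real.exp_nat_mul]; norm_num
      have h4 := Real.exp_one_lt_d9
      nlinarith [Real.exp_pos (1 / 2 : ℝ)]
    linarith
  have hexpm : 1 - ρ ≤ Real.exp (-ρ) := by
    have := Real.add_one_le_exp (-ρ)
    linarith
  have hexpp : Real.exp ρ ≤ 1 + 2 * ρ := by
    have h1 : Real.exp ρ * Real.exp (-ρ) = 1 := by rw [← Real.exp_add]; simp
    have h2 : Real.exp ρ * (1 - ρ) ≤ Real.exp ρ * Real.exp (-ρ) :=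
      mul_le_mul_of_nonneg_left hexpm (Real.exp_pos _).le
    rw [h1] at h2
    have h3 : 0 < 1 - ρ := by linarith
    have h4 : 1 ≤ (1 + 2 * ρ) * (1 - ρ) := by nlinarith
    have h5 : Real.exp ρ * (1 - ρ) ≤ (1 + 2 * ρ) * (1 - ρ) := h2.trans h4
    exact le_of_mul_le_mul_right h5 h3
  have hcard : (S.card : ℝ) ≤ 3 * ρ * c + 1 := by
    have hsub : S ⊆ Icc ⌈c * Real.exp (-ρ)⌉₊ ⌊c * Real.exp ρ⌋₊ := by
      intro n hn
      obtain ⟨d1, d2⟩ := hrange n hn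
      rw [mem_Icc]
      exact ⟨Nat.ceil_le.mpr d1, Nat.le_floor d2⟩
    have h1 := card_le_card hsub
    rw [Nat.card_Icc] at h1
    have h2 : ((⌊c * Real.exp ρ⌋₊ + 1 - ⌈c * Real.exp (-ρ)⌉₊ : ℕ) : ℝ) ≤
        c * Real.exp ρ + 1 - c * Real.exp (-ρ) := by
      have h3 : (⌊c * Real.exp ρ⌋₊ : ℝ) ≤ c * Real.exp ρ := Nat.floor_le (by positivity)
      have h4 : c * Real.exp (-ρ) ≤ (⌈c * Real.exp (-ρ)⌉₊ : ℝ) := Nat.le_ceil _
      rcases le_or_gt ⌈c * Real.exp (-ρ)⌉₊ (⌊c * Real.exp ρ⌋₊ + 1) with h | h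
      · rw [Nat.cast_sub h]
        push_cast
        linarith
      · rw [Nat.sub_eq_zero_of_le h.le]
        have : Real.exp (-ρ) ≤ Real.exp ρ := Real.exp_le_exp.mpr (by linarith)
        have : c * Real.exp (-ρ) ≤ c * Real.exp ρ := by gcongr
        push_cast
        linarith
    have h5 : (S.card : ℝ) ≤ c * Real.exp ρ + 1 - c * Real.exp (-ρ) :=
      le_trans (by exact_mod_cast h1) h2
    have h6 : c * (Real.exp ρ - Real.exp (-ρ)) ≤ c * (3 * ρ) := by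
      gcongr
      linarith
    linarith
  have hcX : c ≤ 2 * X := by
    have h1 := (hrange n0 hn0).1
    have h2 : (1:ℝ) / 2 ≤ Real.exp (-ρ) := by
      rw [Real.exp_neg, ← one_div]
      exact one_div_le_one_div_of_le (Real.exp_pos _) hexpρ
    have h3 : c * (1 / 2) ≤ c * Real.exp (-ρ) := by gcongr
    linarith
  have hterm : ∀ n ∈ S, (|f n| * (Real.sqrt n)⁻¹) * (|g l| * (Real.sqrt l)⁻¹) ≤
      (2 * C * c ^ (-σ)) * |g l| := by
    intro n hn
    obtain ⟨d1, d2, d3⟩ := hmem n hn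
    obtain ⟨r1, r2⟩ := hrange n hn
    have hn0' : (0:ℝ) < n := by exact_mod_cast d1
    have h1 := hf n d1
    have h2 : (n:ℝ) ^ (-σ) ≤ 2 * c ^ (-σ) := by
      have h3 : c / 2 ≤ n := by
        have h2 : (1:ℝ) / 2 ≤ Real.exp (-ρ) := by
          rw [Real.exp_neg, ← one_div]
          exact one_div_le_one_div_of_le (Real.exp_pos _) hexpρ
        have h3 : c * (1 / 2) ≤ c * Real.exp (-ρ) := by gcongr
        linarith
      have h4 : (n:ℝ) ^ (-σ) ≤ (c / 2) ^ (-σ) :=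
        Real.rpow_le_rpow_of_nonpos (by positivity) h3 (by linarith)
      have h5 : (c / 2) ^ (-σ) = c ^ (-σ) * 2 ^ σ := by
        rw [Real.div_rpow hc0.le (by norm_num), Real.rpow_neg (by norm_num : (0:ℝ) ≤ 2), div_inv_eq_mul]
      have h6 : (2:ℝ) ^ σ ≤ 2 := by
        calc (2:ℝ) ^ σ ≤ 2 ^ (1:ℝ) := Real.rpow_le_rpow_of_exponent_le (by norm_num) hσ1
          _ = 2 := Real.rpow_one 2
      rw [h5] at h4
      have h7 : 0 ≤ c ^ (-σ) := by positivity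
      nlinarith
    have h3 : (Real.sqrt l)⁻¹ ≤ 1 := inv_sqrt_le_one hl.1
    have h8 : |f n| * (Real.sqrt n)⁻¹ ≤ 2 * C * c ^ (-σ) := by
      calc _ ≤ C * (n:ℝ) ^ (-σ) := h1
        _ ≤ C * (2 * c ^ (-σ)) := by gcongr
        _ = _ := by ring
    calc _ ≤ (2 * C * c ^ (-σ)) * (|g l| * 1) := by gcongr
      _ = _ := by ring
  refine (sum_le_card_nsmul _ _ _ hterm).trans ?_
  rw [nsmul_eq_mul]
  have hk1 : c * c ^ (-σ) ≤ 2 * X ^ (1 - σ) := by
    have e1 : c * c ^ (-σ) = c ^ (1 - σ) := by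
      nth_rewrite 1 [← Real.rpow_one c]
      rw [← Real.rpow_add hc0]
      congr 1
    rw [e1]
    calc c ^ (1 - σ) ≤ (2 * X) ^ (1 - σ) := Real.rpow_le_rpow hc0.le hcX (by linarith)
      _ = 2 ^ (1 - σ) * X ^ (1 - σ) := Real.mul_rpow (by norm_num) (by linarith)
      _ ≤ 2 * X ^ (1 - σ) := by
          gcongr
          calc (2:ℝ) ^ (1 - σ) ≤ 2 ^ (1:ℝ) := Real.rpow_le_rpow_of_exponent_le (by norm_num) (by linarith)
            _ = 2 := Real.rpow_one 2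
  have hk2 : c ^ (-σ) ≤ Real.exp (-(Ω * σ)) := by
    calc c ^ (-σ) ≤ (Real.exp Ω) ^ (-σ) :=
          Real.rpow_le_rpow_of_nonpos (Real.exp_pos _) hcΩ (by linarith)
      _ = Real.exp (-(Ω * σ)) := by
          rw [← Real.exp_mul]
          congr 1; ring
  have hcc : 0 ≤ c ^ (-σ) := by positivity
  calc (S.card : ℝ) * ((2 * C * c ^ (-σ)) * |g l|) ≤
      (3 * ρ * c + 1) * ((2 * C * c ^ (-σ)) * |g l|) := by gcongr
    _ = |g l| * (2 * C * (3 * ρ * (c * c ^ (-σ)) + c ^ (-σ))) := by ring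
    _ ≤ |g l| * (2 * C * (3 * ρ * (2 * X ^ (1 - σ)) + Real.exp (-(Ω * σ)))) := by gcongr
    _ ≤ _ := by
        have h0 : 0 ≤ ρ * X ^ (1 - σ) := by positivity
        have h1 : 3 * ρ * (2 * X ^ (1 - σ)) ≤ 9 * ρ * X ^ (1 - σ) := by linarith
        refine mul_le_mul_of_nonneg_left (mul_le_mul_of_nonneg_left (add_le_add h1 le_rfl) ?_)
          (abs_nonneg _)
        positivity

end

end Pool.Agent.R311.AP
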