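import Pool.Agent.R311.AP.Q

set_option autoImplicit false

/-! Mean values over arithmetic progressions, continued. -/

namespace Pool.Agent.R311.AP

open Finset MeasureTheory Filter Topology
open Pool.Agent.H306R2 Pool.Agent.R311.BS

noncomputable section

/-- the frequencies of the progression -/
def fr (α : ℝ) (m : ℤ) : ℝ := 2 * Real.pi / α * m

lemma x_bound {X Y : ℝ} (hY : 1 ≤ Y) (hYX : Y ≤ X) {n l : ℕ} (hn : n ∈ Icc 1 ⌊X⌋₊) (hl : l ∈ Icc 1 ⌊Y⌋₊) :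
    |Real.log l - Real.log n| ≤ Real.log X := by
  rw [mem_Icc] at hn hl
  have hnX : (n:ℝ) ≤ X := (Nat.cast_le.mpr hn.2).trans (Nat.floor_le (by linarith))
  have hlY : (l:ℝ) ≤ Y := (Nat.cast_le.mpr hl.2).trans (Nat.floor_le (by linarith))
  have hn1 : (1:ℝ) ≤ n := by exact_mod_cast hn.1
  have hl1 : (1:ℝ) ≤ l := by exact_mod_cast hl.1
  have a1 := Real.log_nonneg hn1
  have a2 := Real.log_nonneg hl1
  have a3 := Real.log_le_log (by linarith) hnX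
  have a4 := Real.log_le_log (by linarith) (hlY.trans hYX)
  rw [abs_le]
  constructor <;> linarith

lemma zero_far {X Y Z ρ : ℝ} (hY : 1 ≤ Y) (hρ1 : ρ ≤ 1) (hZ : Y * Real.exp 1 ≤ Z) (hρ2 : ρ ≤ 1 / Z)
    (hYX : Y ≤ X) {n l : ℕ} (hn : n ∈ Icc 1 ⌊X⌋₊) (hl : l ∈ Icc 1 ⌊Y⌋₊) (h : n ≠ l) :
    ρ ≤ |Real.log l - Real.log n| := by
  rw [mem_Icc] at hn hl
  have hn0 : (0:ℝ) < n := by exact_mod_cast hn.1
  have hl0 : (0:ℝ) < l := by exact_mod_cast hl.1
  have hlY : (l:ℝ) ≤ Y := (Nat.cast_le.mpr hl.2).trans (Nat.floor_le (by linarith))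
  by_cases hnZ : (n:ℝ) ≤ Z
  · have hlZ : (l:ℝ) ≤ Z := by
      refine hlY.trans (le_trans ?_ hZ)
      have : 1 ≤ Real.exp 1 := Real.one_le_exp (by norm_num)
      nlinarith
    exact hρ2.trans (log_gap hl.1 hn.1 (Ne.symm h) Z hlZ hnZ)
  · rw [not_le] at hnZ
    have h3 : Real.log l + 1 ≤ Real.log n := by
      rw [← Real.log_exp 1, ← Real.log_mul hl0.ne' (Real.exp_ne_zero _)]
      apply Real.log_le_log (by positivity)
      have : l * Real.exp 1 ≤ Y * Real.exp 1 := by gcongr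
      linarith
    rw [abs_of_nonpos (by linarith)]
    linarith

theorem ap_mean {κ : ℝ} (hκ : 1 ≤ κ) (P : ℕ) (α β τ H : ℝ) (hα : 0 < α) (hH : 0 < H) (f g : ℕ → ℝ)
    (X Y Z ρ C Ω σ : ℝ) (hσ0 : 0 ≤ σ) (hσ1 : σ ≤ 1) (M : ℕ) (hC : 0 ≤ C) (hY : 1 ≤ Y) (hYX : Y ≤ X) (hρ : 0 < ρ) (hρ1 : ρ ≤ 1 / 2)
    (hZ : Y * Real.exp (Ω + 1) ≤ Z) (hρ2 : 2 * ρ ≤ 1 / (Z * Y)) (hΩ : Y * Real.exp 1 ≤ Real.exp Ω)
    (hM : Real.log X + 1 ≤ 2 * Real.pi / α * (M + 1))
    (hy : 1 ≤ H ^ 2 * (2 * Real.pi / α) ^ 2 / 16)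
    (hy2 : Lam * Real.exp (-(H ^ 2 * (2 * Real.pi / α) ^ 2 / 16)) ≤ 1)
    (hf : ∀ n : ℕ, (n:ℝ) ≤ Z → |f n| ≤ dv κ n ∧ (f n ≠ 0 → n.Coprime P))
    (hf4 : ∀ n : ℕ, 1 ≤ n → |f n| * (Real.sqrt n)⁻¹ ≤ C * (n:ℝ) ^ (-σ))
    (hg : ∀ l : ℕ, |g l| ≤ dv κ l ∧ (g l ≠ 0 → l.Coprime P))
    (Γ : ℤ → ℝ) (hΓ0 : ∀ m, 0 ≤ Γ m)
    (hΓ : ∀ m : ℤ, m ≠ 0 → ∀ a b : ℕ, 1 ≤ a → 1 ≤ b → a.Coprime b → a.Coprime P → b.Coprime P →
      |fr α m - Real.log a + Real.log b| < ρ →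
      dv κ a * dv κ b * (Real.sqrt a)⁻¹ * (Real.sqrt b)⁻¹ ≤ Γ m) :
    ‖(α : ℂ) * ∑' k : ℤ, (Dp f X (1 / 2 + ((α * k + β : ℝ) : ℂ) * Complex.I) *
      (starRingEnd ℂ) (Dp g Y (1 / 2 + ((α * k + β : ℝ) : ℂ) * Complex.I))) * (gw τ H (α * k + β) : ℂ) -
      ((∑ n ∈ Icc 1 ⌊Y⌋₊, f n * g n / n : ℝ) : ℂ)‖ ≤
      2 * ((∑ m ∈ (Icc (-(M:ℤ)) M).erase 0, Γ m) * (∑ v ∈ Icc 1 ⌊Y⌋₊, dv κ v ^ 2 / v) +
        (2 * M + 1) * (l1 g Y * (2 * C * (9 * ρ * X ^ (1 - σ) + Real.exp (-(Ω * σ)))))) +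
      l1 f X * l1 g Y * (gq H ρ + Lam * Real.exp (-(H ^ 2 * (2 * Real.pi / α) ^ 2 / 16))) := by
  have hκ0 : 0 ≤ κ := by linarith
  have hX1 : 1 ≤ X := hY.trans hYX
  have hLam := Lam_ge_one
  set h := 2 * Real.pi / α with hh
  have hh0 : 0 < h := by positivity
  set e0 := Lam * Real.exp (-(H ^ 2 * h ^ 2 / 16)) with he0
  have he00 : 0 ≤ e0 := by positivity
  have hgq := gq_nonneg H ρ
  have hZ1 : Y * Real.exp 1 ≤ Z := by
    refine le_trans ?_ hZ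
    have hΩ0 : 0 ≤ Ω := by
      have h1 : Real.exp 0 ≤ Real.exp Ω := by
        rw [Real.exp_zero]
        have : 1 ≤ Real.exp 1 := Real.one_le_exp (by norm_num)
        nlinarith
      exact Real.exp_le_exp.mp h1
    gcongr
    linarith
  have hZpos : 0 < Z := lt_of_lt_of_le (by positivity) hZ1
  have hρ3 : ρ ≤ 1 / Z := by
    have h1 : 1 / (Z * Y) ≤ 1 / Z := one_div_le_one_div_of_le hZpos (by nlinarith)
    linarith
  rw [ap_expansion α β τ H hα hH f g X Y]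
  have ed : ((∑ n ∈ Icc 1 ⌊Y⌋₊, f n * g n / n : ℝ) : ℂ) =
      ∑ n ∈ Icc 1 ⌊X⌋₊, ∑ l ∈ Icc 1 ⌊Y⌋₊, if n = l then ((f n * g n / n : ℝ) : ℂ) else 0 := by
    push_cast
    rw [sum_comm]
    refine sum_congr rfl fun l hl => ?_
    rw [sum_ite_eq' (Icc 1 ⌊X⌋₊) l (fun n => ((f n : ℂ) * (g n : ℂ) / (n : ℂ)))]
    rw [mem_Icc] at hl
    rw [if_pos (mem_Icc.mpr ⟨hl.1, hl.2.trans (Nat.floor_le_floor hYX)⟩)]
  rw [ed, ← sum_sub_distrib]
  simp only [← sum_sub_distrib]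
  -- termwise bound
  have hterm : ∀ n ∈ Icc 1 ⌊X⌋₊, ∀ l ∈ Icc 1 ⌊Y⌋₊,
      ‖(((f n * (Real.sqrt n)⁻¹ : ℝ) : ℂ) * ((g l * (Real.sqrt l)⁻¹ : ℝ) : ℂ)) *
        Dl α β τ H (Real.log l - Real.log n) - (if n = l then ((f n * g n / n : ℝ) : ℂ) else 0)‖ ≤
      2 * (∑ m ∈ (Icc (-(M:ℤ)) M).erase 0, (if |fr α m - Real.log n + Real.log l| < ρ then
        (|f n| * (Real.sqrt n)⁻¹) * (|g l| * (Real.sqrt l)⁻¹) else 0)) +
      |f n| * |g l| * (gq H ρ + e0) := by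
    intro n hn l hl
    have hnl := mem_Icc.mp hn
    have hll := mem_Icc.mp hl
    have a1 := inv_sqrt_le_one hnl.1
    have a2 := inv_sqrt_le_one hll.1
    have hn0 : (0:ℝ) < n := by exact_mod_cast hnl.1
    have hfg0 : 0 ≤ (|f n| * (Real.sqrt n)⁻¹) * (|g l| * (Real.sqrt l)⁻¹) := by positivity
    have hfg1 : (|f n| * (Real.sqrt n)⁻¹) * (|g l| * (Real.sqrt l)⁻¹) ≤ |f n| * |g l| := by
      calc _ ≤ (|f n| * 1) * (|g l| * 1) := by gcongr
        _ = _ := by ring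
    have hsum0 : 0 ≤ ∑ m ∈ (Icc (-(M:ℤ)) M).erase 0, (if |fr α m - Real.log n + Real.log l| < ρ then
        (|f n| * (Real.sqrt n)⁻¹) * (|g l| * (Real.sqrt l)⁻¹) else 0) := by
      refine sum_nonneg fun m _ => ?_
      split_ifs
      · exact hfg0
      · exact le_refl _
    have hnorm : ‖((f n * (Real.sqrt n)⁻¹ : ℝ) : ℂ) * ((g l * (Real.sqrt l)⁻¹ : ℝ) : ℂ)‖ =
        (|f n| * (Real.sqrt n)⁻¹) * (|g l| * (Real.sqrt l)⁻¹) := by
      rw [norm_mul, Complex.norm_real, Complex.norm_real, Real.norm_eq_abs, Real.norm_eq_abs, abs_mul,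
        abs_mul, abs_inv, abs_inv, abs_of_nonneg (Real.sqrt_nonneg _), abs_of_nonneg (Real.sqrt_nonneg _)]
    by_cases h1 : n = l
    · subst h1
      rw [if_pos rfl, sub_self]
      have e4 : ((f n * g n / n : ℝ) : ℂ) =
          (((f n * (Real.sqrt n)⁻¹ : ℝ) : ℂ) * ((g n * (Real.sqrt n)⁻¹ : ℝ) : ℂ)) := by
        rw [← Complex.ofReal_mul]
        congr 1
        have s3 : (Real.sqrt n)⁻¹ * (Real.sqrt n)⁻¹ = 1 / (n:ℝ) := by
          rw [← mul_inv, Real.mul_self_sqrt hn0.le, one_div]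
        calc f n * g n / n = f n * g n * (1 / (n:ℝ)) := by ring
          _ = f n * g n * ((Real.sqrt n)⁻¹ * (Real.sqrt n)⁻¹) := by rw [s3]
          _ = _ := by ring
      rw [e4]
      have e5 : (((f n * (Real.sqrt n)⁻¹ : ℝ) : ℂ) * ((g n * (Real.sqrt n)⁻¹ : ℝ) : ℂ)) * Dl α β τ H 0 -
          (((f n * (Real.sqrt n)⁻¹ : ℝ) : ℂ) * ((g n * (Real.sqrt n)⁻¹ : ℝ) : ℂ)) =
          (((f n * (Real.sqrt n)⁻¹ : ℝ) : ℂ) * ((g n * (Real.sqrt n)⁻¹ : ℝ) : ℂ)) * (Dl α β τ H 0 - 1) := by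
        ring
      rw [e5, norm_mul, hnorm]
      have h2 := Dl_zero α β τ H hα hH hy
      have h3 : (|f n| * (Real.sqrt n)⁻¹) * (|g n| * (Real.sqrt n)⁻¹) * ‖Dl α β τ H 0 - 1‖ ≤
          |f n| * |g n| * (gq H ρ + e0) := by
        have : ‖Dl α β τ H 0 - 1‖ ≤ gq H ρ + e0 := by linarith
        gcongr
      linarith
    · rw [if_neg h1, sub_zero, norm_mul, hnorm]
      by_cases h2 : ∃ m ∈ (Icc (-(M:ℤ)) M).erase 0, |fr α m - Real.log n + Real.log l| < ρ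
      · obtain ⟨m, hm, hm2⟩ := h2
        have h3 := Dl_near α β τ H (Real.log l - Real.log n) hα hH hy
        have h4 : ‖Dl α β τ H (Real.log l - Real.log n)‖ ≤ 2 := by linarith
        have h5 := single_le_sum (f := fun m => (if |fr α m - Real.log n + Real.log l| < ρ then
          (|f n| * (Real.sqrt n)⁻¹) * (|g l| * (Real.sqrt l)⁻¹) else 0)) (fun m _ => by
            split_ifs
            · exact hfg0
            · exact le_refl _) hm
        rw [if_pos hm2] at h5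
        have h6 : 0 ≤ |f n| * |g l| * (gq H ρ + e0) := by positivity
        have h7 : (|f n| * (Real.sqrt n)⁻¹) * (|g l| * (Real.sqrt l)⁻¹) *
            ‖Dl α β τ H (Real.log l - Real.log n)‖ ≤
            (|f n| * (Real.sqrt n)⁻¹) * (|g l| * (Real.sqrt l)⁻¹) * 2 := by gcongr
        linarith
      · push Not at h2
        have h3 := Dl_far α β τ H (Real.log l - Real.log n) ρ hα hH hρ.le hy (by
          intro m
          rw [← hh]
          by_cases hm0 : m = 0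
          · subst hm0
            have := zero_far hY (by linarith) hZ1 hρ3 hYX hn hl h1
            rw [Int.cast_zero, mul_zero, zero_sub, abs_neg]
            exact this
          · by_cases hmM : m ∈ Icc (-(M:ℤ)) M
            · have h4 := h2 (-m) (by
                rw [mem_erase, mem_Icc]
                rw [mem_Icc] at hmM
                refine ⟨by omega, by omega, by omega⟩)
              unfold fr at h4
              rw [← hh] at h4
              have e : h * ((-m : ℤ) : ℝ) - Real.log n + Real.log l = -(h * m - (Real.log l - Real.log n)) := by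
                push_cast; ring
              rw [e, abs_neg] at h4
              exact h4
            · have hx := x_bound hY hYX hn hl
              have hm1 : (M:ℝ) + 1 ≤ |(m:ℝ)| := by
                have : (M:ℤ) + 1 ≤ |m| := by
                  rw [mem_Icc, not_and_or, not_le, not_le] at hmM
                  rcases hmM with h4 | h4
                  · rw [abs_of_neg (by omega)]; omega
                  · rw [abs_of_pos (by omega)]; omega
                exact_mod_cast this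
              have h4 : h * |(m:ℝ)| - |Real.log l - Real.log n| ≤ |h * m - (Real.log l - Real.log n)| := by
                have h5 := abs_sub_abs_le_abs_sub (h * (m:ℝ)) (Real.log l - Real.log n)
                rw [abs_mul, abs_of_pos hh0] at h5
                exact h5
              have h5 : h * (M + 1) ≤ h * |(m:ℝ)| := by gcongr
              linarith)
        rw [← he0] at h3
        have h4 : (|f n| * (Real.sqrt n)⁻¹) * (|g l| * (Real.sqrt l)⁻¹) *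
            ‖Dl α β τ H (Real.log l - Real.log n)‖ ≤ |f n| * |g l| * (gq H ρ + e0) := by gcongr
        linarith
  refine (norm_sum_le_of_le _ fun n hn => norm_sum_le_of_le _ fun l hl => hterm n hn l hl).trans ?_
  -- reorganise
  have hsplit : ∑ n ∈ Icc 1 ⌊X⌋₊, ∑ l ∈ Icc 1 ⌊Y⌋₊,
      (2 * (∑ m ∈ (Icc (-(M:ℤ)) M).erase 0, (if |fr α m - Real.log n + Real.log l| < ρ then
        (|f n| * (Real.sqrt n)⁻¹) * (|g l| * (Real.sqrt l)⁻¹) else 0)) +
      |f n| * |g l| * (gq H ρ + e0)) =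
      2 * (∑ m ∈ (Icc (-(M:ℤ)) M).erase 0, NN f g X Y ρ (fr α m)) +
      l1 f X * l1 g Y * (gq H ρ + e0) := by
    simp only [sum_add_distrib, ← mul_sum]
    congr 1
    · congr 1
      unfold NN
      have e6 : ∀ n ∈ Icc 1 ⌊X⌋₊, ∑ l ∈ Icc 1 ⌊Y⌋₊, ∑ m ∈ (Icc (-(M:ℤ)) M).erase 0,
          (if |fr α m - Real.log n + Real.log l| < ρ then
            (|f n| * (Real.sqrt n)⁻¹) * (|g l| * (Real.sqrt l)⁻¹) else 0) =
          ∑ m ∈ (Icc (-(M:ℤ)) M).erase 0, ∑ l ∈ Icc 1 ⌊Y⌋₊,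
          (if |fr α m - Real.log n + Real.log l| < ρ then
            (|f n| * (Real.sqrt n)⁻¹) * (|g l| * (Real.sqrt l)⁻¹) else 0) := fun n _ => sum_comm
      rw [sum_congr rfl e6]
      exact sum_comm
    · unfold l1
      rw [sum_mul_sum, sum_mul]
      refine sum_congr rfl fun n _ => ?_
      rw [sum_mul]
  rw [hsplit]
  have hNN : ∀ m ∈ (Icc (-(M:ℤ)) M).erase 0, NN f g X Y ρ (fr α m) ≤
      Γ m * (∑ v ∈ Icc 1 ⌊Y⌋₊, dv κ v ^ 2 / v) +
        l1 g Y * (2 * C * (9 * ρ * X ^ (1 - σ) + Real.exp (-(Ω * σ)))) := by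
    intro m hm
    rw [mem_erase] at hm
    have hU0 : 0 ≤ ∑ v ∈ Icc 1 ⌊Y⌋₊, dv κ v ^ 2 / v := sum_nonneg fun v _ => by positivity
    have hl0 := l1_nonneg g Y
    have hE0 : 0 ≤ l1 g Y * (2 * C * (9 * ρ * X ^ (1 - σ) + Real.exp (-(Ω * σ)))) := by positivity
    rcases le_or_gt Ω |fr α m| with h1 | h1
    · have h2 := NN_large f g X Y ρ (fr α m) C Ω σ hσ0 hσ1 hC hX1 hY hρ hρ1 hf4 hΩ h1
      have h3 := mul_nonneg (hΓ0 m) hU0
      linarith
    · have h2 := near_bound κ hκ0 (dv_submul hκ) P f g X Y Z ρ (fr α m) (Γ m) hY (by linarith) (by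
        refine le_trans ?_ hZ
        gcongr) hρ2 hf hg (hΓ0 m) (hΓ m hm.1)
      linarith
  have hNNs := sum_le_sum hNN
  rw [sum_add_distrib, ← sum_mul, sum_const, nsmul_eq_mul] at hNNs
  have hcard : (((Icc (-(M:ℤ)) M).erase 0).card : ℝ) ≤ 2 * M + 1 := by
    have h1 : ((Icc (-(M:ℤ)) M).erase 0).card ≤ (Icc (-(M:ℤ)) M).card := card_erase_le
    rw [Int.card_Icc] at h1
    have h2 : ((Icc (-(M:ℤ)) M).erase 0).card ≤ 2 * M + 1 := by omega
    exact_mod_cast h2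
  have hl0 := l1_nonneg g Y
  have hE0 : 0 ≤ l1 g Y * (2 * C * (9 * ρ * X ^ (1 - σ) + Real.exp (-(Ω * σ)))) := by positivity
  have hc2 := mul_le_mul_of_nonneg_right hcard hE0
  linarith

end

end Pool.Agent.R311.AP
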