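import Pool.Agent.R311.AP.R
import Pool.Agent.R311.BS.WF

set_option autoImplicit false

/-! Mean squares over arithmetic progressions, coefficient bounds, tails of the weights. -/

namespace Pool.Agent.R311.AP

open Finset MeasureTheory Filter Topology
open Pool.Agent.H306R2 Pool.Agent.R311.BS

noncomputable section

/-! ### coefficient bounds -/

theorem dv_quarter {κ : ℝ} (hκ : 0 ≤ κ) : ∃ C : ℝ, 1 ≤ C ∧ ∀ n : ℕ, 1 ≤ n →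
    dv κ n * (Real.sqrt n)⁻¹ ≤ C * (n:ℝ) ^ (-(1 / 4) : ℝ) := by
  obtain ⟨C, hC, h⟩ := dv_growth hκ
  refine ⟨C + 1, by linarith, fun n hn => ?_⟩
  have hn0 : (0:ℝ) < n := by exact_mod_cast hn
  have e1 : ((Real.sqrt n)⁻¹) ^ 8 = ((n:ℝ) ^ 4)⁻¹ := by
    rw [inv_pow]
    congr 1
    calc Real.sqrt n ^ 8 = (Real.sqrt n ^ 2) ^ 4 := by ring
      _ = _ := by rw [Real.sq_sqrt hn0.le]
  have key : (dv κ n * (Real.sqrt n)⁻¹) ^ 8 ≤ C / (n:ℝ) ^ 2 := by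
    rw [mul_pow, e1, ← div_eq_mul_inv, div_le_div_iff₀ (by positivity) (by positivity)]
    have := h n
    calc dv κ n ^ 8 * (n:ℝ) ^ 2 ≤ (C * (n:ℝ) ^ 2) * (n:ℝ) ^ 2 := by gcongr
      _ = C * (n:ℝ) ^ 4 := by ring
  have e2 : ((C + 1) * (n:ℝ) ^ (-(1 / 4) : ℝ)) ^ 8 = (C + 1) ^ 8 / (n:ℝ) ^ 2 := by
    rw [mul_pow, ← Real.rpow_natCast ((n:ℝ) ^ (-(1 / 4) : ℝ)), ← Real.rpow_mul hn0.le,
      show (-(1 / 4) : ℝ) * ((8:ℕ):ℝ) = -((2:ℕ):ℝ) by norm_num, Real.rpow_neg hn0.le,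
      Real.rpow_natCast, div_eq_mul_inv]
  have h4 : C ≤ (C + 1) ^ 8 := by
    calc C ≤ (C + 1) ^ 1 := by rw [pow_one]; linarith
      _ ≤ (C + 1) ^ 8 := pow_le_pow_right₀ (by linarith) (by norm_num)
  refine le_of_pow_le_pow_left₀ (n := 8) (by norm_num) (by positivity) ?_
  rw [e2]
  refine key.trans ?_
  gcongr

lemma conv_dv {f g : ArithmeticFunction ℝ} {a b : ℝ} (ha : 0 ≤ a)
    (hf : ∀ n, |f n| ≤ dv a n) (hg : ∀ n, |g n| ≤ dv b n) (n : ℕ) : |(f * g) n| ≤ dv (a + b) n := by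
  have h := congrArg (fun f : ArithmeticFunction ℝ => f n) (dA_mul a b)
  simp only [ArithmeticFunction.mul_apply, dA_apply] at h
  rw [ArithmeticFunction.mul_apply, ← h]
  refine (abs_sum_le_sum_abs _ _).trans (sum_le_sum fun x _ => ?_)
  rw [abs_mul]
  exact mul_le_mul (hf _) (hg _) (abs_nonneg _) (dv_nonneg ha _)

lemma muP_dv (P n : ℕ) : |muP P n| ≤ dv 1 n := by
  rw [muP_apply]
  split_ifs with h
  · rw [dv_one_left (by omega)]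
    have := ArithmeticFunction.abs_moebius_le_one (n := n)
    exact_mod_cast this
  · rw [abs_zero]
    exact dv_nonneg zero_le_one n

lemma cA_abs_dv (P : ℕ) (N : ℝ) {α : ℝ} (hα : 0 ≤ α) (n : ℕ) : |cA P N α n| ≤ dv α n := by
  rw [abs_of_nonneg (cA_nonneg P N hα n)]
  exact (cA_le P N hα n).trans (xA_le P hα n)

lemma cA_pow_dv (P : ℕ) (N : ℝ) {α : ℝ} (hα : 0 ≤ α) (k n : ℕ) : |(cA P N α ^ k) n| ≤ dv (k * α) n := by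
  have h := cA_pow_le P N hα k n
  rw [abs_of_nonneg h.1]
  exact h.2.trans (xA_le P (by positivity) n)

lemma Bf_dv (q : ℕ) (hq : 2 ≤ q) (P : ℕ) (N X : ℝ) (n : ℕ) : |Bf q P N X n| ≤ dv ((q:ℝ) / 2 + 1) n := by
  have e : (q:ℝ) / 2 + 1 = ((q - 2 : ℕ) : ℝ) * (1 / 2) + (1 + 1) := by
    rw [Nat.cast_sub hq]; push_cast; ring
  rw [e]
  unfold Bf zP
  exact conv_dv (by positivity) (cA_pow_dv P N (by norm_num) (q - 2))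
    (conv_dv zero_le_one (muP_dv P) (cA_abs_dv 1 X zero_le_one)) n

theorem dv_pow_growth (j : ℕ) : ∀ {κ : ℝ}, 0 ≤ κ → ∃ C : ℝ, 1 ≤ C ∧ ∀ n : ℕ, 1 ≤ n →
    dv κ n ^ 2 ^ j ≤ C * (n:ℝ) ^ (1 / 4 : ℝ) := by
  induction j with
  | zero =>
    intro κ hκ
    obtain ⟨C, hC, h⟩ := dv_growth hκ
    refine ⟨C + 1, by linarith, fun n hn => ?_⟩
    have hn0 : (0:ℝ) < n := by exact_mod_cast hn
    rw [pow_zero, pow_one]
    refine le_of_pow_le_pow_left₀ (n := 8) (by norm_num) (by positivity) ?_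
    have e2 : ((C + 1) * (n:ℝ) ^ (1 / 4 : ℝ)) ^ 8 = (C + 1) ^ 8 * (n:ℝ) ^ 2 := by
      rw [mul_pow, ← Real.rpow_natCast ((n:ℝ) ^ (1 / 4 : ℝ)), ← Real.rpow_mul hn0.le,
        show (1 / 4 : ℝ) * ((8:ℕ):ℝ) = ((2:ℕ):ℝ) by norm_num, Real.rpow_natCast]
    have h4 : C ≤ (C + 1) ^ 8 := by
      calc C ≤ (C + 1) ^ 1 := by rw [pow_one]; linarith
        _ ≤ (C + 1) ^ 8 := pow_le_pow_right₀ (by linarith) (by norm_num)
    rw [e2]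
    refine (h n).trans ?_
    gcongr
  | succ j ih =>
    intro κ hκ
    obtain ⟨C, hC, h⟩ := ih (κ := κ ^ 2) (by positivity)
    refine ⟨C, hC, fun n hn => ?_⟩
    refine le_trans ?_ (h n hn)
    have e1 := dv_sq_le hκ n
    have p0 := dv_nonneg hκ n
    calc dv κ n ^ 2 ^ (j + 1) = (dv κ n ^ 2) ^ 2 ^ j := by rw [← pow_mul]; congr 1; ring
      _ ≤ _ := by gcongr

/-- divisor functions are `O(n^ε)` -/
theorem dv_small {κ : ℝ} (hκ : 0 ≤ κ) (ε : ℝ) (hε : 0 < ε) : ∃ C : ℝ, 1 ≤ C ∧ ∀ n : ℕ, 1 ≤ n →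
    dv κ n * (Real.sqrt n)⁻¹ ≤ C * (n:ℝ) ^ (-(1 / 2 - ε)) := by
  obtain ⟨j, hj⟩ : ∃ j : ℕ, 1 / ε < 2 ^ j := by
    obtain ⟨j, hj⟩ := pow_unbounded_of_one_lt (1 / ε) (by norm_num : (1:ℝ) < 2)
    exact ⟨j, hj⟩
  obtain ⟨C, hC, h⟩ := dv_pow_growth j hκ
  refine ⟨C, hC, fun n hn => ?_⟩
  have hn0 : (0:ℝ) < n := by exact_mod_cast hn
  have hn1 : (1:ℝ) ≤ n := by exact_mod_cast hn
  have h2j : (1:ℝ) ≤ 2 ^ j := one_le_pow₀ (by norm_num)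
  have h1 : dv κ n ≤ C * (n:ℝ) ^ ε := by
    refine le_of_pow_le_pow_left₀ (n := 2 ^ j) (by positivity) (by positivity) ?_
    refine (h n hn).trans ?_
    rw [mul_pow]
    have h2 : C ≤ C ^ 2 ^ j := le_self_pow₀ hC (by positivity)
    have h3 : (n:ℝ) ^ (1 / 4 : ℝ) ≤ ((n:ℝ) ^ ε) ^ 2 ^ j := by
      rw [← Real.rpow_natCast, ← Real.rpow_mul hn0.le]
      apply Real.rpow_le_rpow_of_exponent_le hn1
      rw [div_lt_iff₀ hε] at hj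
      push_cast
      linarith
    gcongr
  calc dv κ n * (Real.sqrt n)⁻¹ ≤ (C * (n:ℝ) ^ ε) * (Real.sqrt n)⁻¹ := by gcongr
    _ = C * ((n:ℝ) ^ ε * (n:ℝ) ^ (-(1 / 2) : ℝ)) := by
        rw [Real.sqrt_eq_rpow, ← Real.rpow_neg hn0.le]
        ring
    _ = _ := by
        rw [← Real.rpow_add hn0]
        congr 2
        ring

lemma quarter_of {κ C σ : ℝ} (hC : ∀ n : ℕ, 1 ≤ n → dv κ n * (Real.sqrt n)⁻¹ ≤ C * (n:ℝ) ^ (-σ))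
    {f : ℕ → ℝ} (hf : ∀ n, |f n| ≤ dv κ n) : ∀ n : ℕ, 1 ≤ n → |f n| * (Real.sqrt n)⁻¹ ≤ C * (n:ℝ) ^ (-σ) := by
  intro n hn
  refine le_trans ?_ (hC n hn)
  have := hf n
  gcongr

/-! ### mean squares -/

lemma sq_summable (α β τ H : ℝ) (hα : 0 < α) (hH : 0 < H) (f : ℕ → ℝ) (Y : ℝ) :
    Summable fun k : ℤ => ‖Dp f Y (1 / 2 + ((α * k + β : ℝ) : ℂ) * Complex.I)‖ ^ 2 * gw τ H (α * k + β) := by
  have h := bdd_summable α β τ H hα hH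
    (fun k : ℤ => ((‖Dp f Y (1 / 2 + ((α * k + β : ℝ) : ℂ) * Complex.I)‖ ^ 2 : ℝ) : ℂ)) (l1 f Y ^ 2)
    (fun k => by
      rw [Complex.norm_real, Real.norm_of_nonneg (by positivity)]
      exact pow_le_pow_left₀ (norm_nonneg _) (Dp_line_norm _ _ _) 2)
  have h2 := Complex.reCLM.summable h
  refine h2.congr fun k => ?_
  simp only [Complex.reCLM_apply]
  rw [← Complex.ofReal_mul, Complex.ofReal_re]

theorem ap_sq {κ : ℝ} (hκ : 1 ≤ κ) (P : ℕ) (α β τ H : ℝ) (hα : 0 < α) (hH : 0 < H) (f : ℕ → ℝ)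
    (Y Z ρ C Ω σ : ℝ) (hσ0 : 0 ≤ σ) (hσ1 : σ ≤ 1) (M : ℕ) (hC : 0 ≤ C) (hY : 1 ≤ Y) (hρ : 0 < ρ) (hρ1 : ρ ≤ 1 / 2)
    (hZ : Y * Real.exp (Ω + 1) ≤ Z) (hρ2 : 2 * ρ ≤ 1 / (Z * Y)) (hΩ : Y * Real.exp 1 ≤ Real.exp Ω)
    (hM : Real.log Y + 1 ≤ 2 * Real.pi / α * (M + 1))
    (hy : 1 ≤ H ^ 2 * (2 * Real.pi / α) ^ 2 / 16)
    (hy2 : Lam * Real.exp (-(H ^ 2 * (2 * Real.pi / α) ^ 2 / 16)) ≤ 1)
    (hf : ∀ n : ℕ, |f n| ≤ dv κ n ∧ (f n ≠ 0 → n.Coprime P))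
    (hf4 : ∀ n : ℕ, 1 ≤ n → |f n| * (Real.sqrt n)⁻¹ ≤ C * (n:ℝ) ^ (-σ))
    (Γ : ℤ → ℝ) (hΓ0 : ∀ m, 0 ≤ Γ m)
    (hΓ : ∀ m : ℤ, m ≠ 0 → ∀ a b : ℕ, 1 ≤ a → 1 ≤ b → a.Coprime b → a.Coprime P → b.Coprime P →
      |fr α m - Real.log a + Real.log b| < ρ →
      dv κ a * dv κ b * (Real.sqrt a)⁻¹ * (Real.sqrt b)⁻¹ ≤ Γ m) :
    α * ∑' k : ℤ, ‖Dp f Y (1 / 2 + ((α * k + β : ℝ) : ℂ) * Complex.I)‖ ^ 2 * gw τ H (α * k + β) ≤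
      (1 + 2 * ∑ m ∈ (Icc (-(M:ℤ)) M).erase 0, Γ m) * (∑ v ∈ Icc 1 ⌊Y⌋₊, dv κ v ^ 2 / v) +
      2 * ((2 * M + 1) * (l1 f Y * (2 * C * (9 * ρ * Y ^ (1 - σ) + Real.exp (-(Ω * σ)))))) +
      l1 f Y * l1 f Y * (gq H ρ + Lam * Real.exp (-(H ^ 2 * (2 * Real.pi / α) ^ 2 / 16))) := by
  have h := ap_mean hκ P α β τ H hα hH f f Y Y Z ρ C Ω σ hσ0 hσ1 M hC hY le_rfl hρ hρ1 hZ hρ2 hΩ hM hy hy2
    (fun n _ => hf n) hf4 hf Γ hΓ0 hΓ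
  have e0 : (fun k : ℤ => (Dp f Y (1 / 2 + ((α * k + β : ℝ) : ℂ) * Complex.I) *
      (starRingEnd ℂ) (Dp f Y (1 / 2 + ((α * k + β : ℝ) : ℂ) * Complex.I))) * (gw τ H (α * k + β) : ℂ)) =
      fun k : ℤ => ((‖Dp f Y (1 / 2 + ((α * k + β : ℝ) : ℂ) * Complex.I)‖ ^ 2 * gw τ H (α * k + β) : ℝ) : ℂ) := by
    funext k
    rw [Complex.mul_conj, Complex.normSq_eq_norm_sq]
    push_cast
    rfl
  rw [e0, ← Complex.ofReal_tsum, ← Complex.ofReal_mul, ← Complex.ofReal_sub, Complex.norm_real,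
    Real.norm_eq_abs] at h
  have h2 := (abs_le.mp h).2
  have h3 : ∑ n ∈ Icc 1 ⌊Y⌋₊, f n * f n / n ≤ ∑ v ∈ Icc 1 ⌊Y⌋₊, dv κ v ^ 2 / v := by
    refine sum_le_sum fun n _ => ?_
    have h4 := (hf n).1
    have h5 : f n * f n ≤ dv κ n ^ 2 := by
      rw [← abs_mul_abs_self (f n), sq]
      exact mul_le_mul h4 h4 (abs_nonneg _) ((abs_nonneg _).trans h4)
    gcongr
  linarith

/-! ### tails of the weights -/

/-- the points of the progression in the window -/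
def Kw (α β τ R : ℝ) : Finset ℤ := Ioc ⌊(τ - R - β) / α⌋ ⌊(τ + R - β) / α⌋

lemma mem_Kw {α β τ R : ℝ} (hα : 0 < α) (k : ℤ) :
    k ∈ Kw α β τ R ↔ α * k + β ∈ Set.Ioc (τ - R) (τ + R) := by
  unfold Kw
  rw [mem_Ioc, Int.floor_lt, Int.le_floor, Set.mem_Ioc, div_lt_iff₀ hα, le_div_iff₀ hα]
  constructor
  · rintro ⟨h1, h2⟩
    constructor <;> linarith
  · rintro ⟨h1, h2⟩
    constructor <;> linarith

lemma gw_outside (τ H R t : ℝ) (hH : 0 < H) (hR : 0 ≤ R) (ht : t ∉ Set.Ioc (τ - R) (τ + R)) :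
    gw τ H t ≤ (3 / 2 * Real.exp (-(R ^ 2 / (2 * H ^ 2)))) * gw τ (Real.sqrt 2 * H) t := by
  have h1 : R ^ 2 ≤ (t - τ) ^ 2 := by
    rw [← sq_abs (t - τ)]
    apply pow_le_pow_left₀ hR
    by_contra hcon
    rw [not_le, abs_lt] at hcon
    exact ht ⟨by linarith [hcon.1], by linarith [hcon.2]⟩
  have hs2 : Real.sqrt 2 ^ 2 = 2 := Real.sq_sqrt (by norm_num)
  have hs0 : 0 < Real.sqrt 2 := Real.sqrt_pos.mpr (by norm_num)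
  have hs1 : Real.sqrt 2 ≤ 3 / 2 := by
    rw [Real.sqrt_le_left (by norm_num)]
    norm_num
  have hpi : 0 < Real.sqrt Real.pi := Real.sqrt_pos.mpr Real.pi_pos
  unfold gw
  have e1 : (Real.sqrt 2 * H) ^ 2 = 2 * H ^ 2 := by rw [mul_pow, hs2]
  rw [e1]
  have e2 : Real.exp (-((t - τ) ^ 2 / H ^ 2)) = Real.exp (-((t - τ) ^ 2 / (2 * H ^ 2))) *
      Real.exp (-((t - τ) ^ 2 / (2 * H ^ 2))) := by
    rw [← Real.exp_add]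
    congr 1
    field_simp
    ring
  have e3 : Real.exp (-((t - τ) ^ 2 / (2 * H ^ 2))) ≤ Real.exp (-(R ^ 2 / (2 * H ^ 2))) := by
    apply Real.exp_le_exp.mpr
    have : R ^ 2 / (2 * H ^ 2) ≤ (t - τ) ^ 2 / (2 * H ^ 2) := by gcongr
    linarith
  rw [e2]
  have e4 : (3 / 2 * Real.exp (-(R ^ 2 / (2 * H ^ 2)))) *
      (Real.exp (-((t - τ) ^ 2 / (2 * H ^ 2))) / (Real.sqrt 2 * H * Real.sqrt Real.pi)) =
      ((3 / 2 / Real.sqrt 2) * Real.exp (-(R ^ 2 / (2 * H ^ 2)))) *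
      Real.exp (-((t - τ) ^ 2 / (2 * H ^ 2))) / (H * Real.sqrt Real.pi) := by
    field_simp
  rw [e4]
  have e5 : 1 ≤ 3 / 2 / Real.sqrt 2 := by rw [le_div_iff₀ hs0]; linarith
  gcongr
  calc Real.exp (-((t - τ) ^ 2 / (2 * H ^ 2))) ≤ Real.exp (-(R ^ 2 / (2 * H ^ 2))) := e3
    _ = 1 * Real.exp (-(R ^ 2 / (2 * H ^ 2))) := (one_mul _).symm
    _ ≤ _ := by gcongr

end

end Pool.Agent.R311.AP
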