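import Pool.Agent.R311.AP.S

set_option autoImplicit false

/-! The lower bound in one Gaussian window over an arithmetic progression. -/

namespace Pool.Agent.R311.AP

open Finset MeasureTheory Filter Topology
open Pool.Agent.H306R2 Pool.Agent.R311.BS

noncomputable section

/-- the contribution of the points outside the window -/
lemma outside_bound (α β τ H R B : ℝ) (hα : 0 < α) (hH : 0 < H) (hR : 0 ≤ R) (hB : 0 ≤ B)
    (hy : 1 ≤ H ^ 2 * (2 * Real.pi / α) ^ 2 / 16)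
    (hy2 : Lam * Real.exp (-(H ^ 2 * (2 * Real.pi / α) ^ 2 / 16)) ≤ 1)
    (F : ℝ → ℂ) (hF : ∀ t, ‖F t‖ ≤ B) :
    ‖(α : ℂ) * ∑' k : (((Kw α β τ R : Finset ℤ) : Set ℤ)ᶜ : Set ℤ), F (α * (k : ℤ) + β) * (gw τ H (α * (k : ℤ) + β) : ℂ)‖ ≤
      B * (3 * Real.exp (-(R ^ 2 / (2 * H ^ 2)))) := by
  have hs2 : Real.sqrt 2 ^ 2 = 2 := Real.sq_sqrt (by norm_num)
  have hs0 : 0 < Real.sqrt 2 := Real.sqrt_pos.mpr (by norm_num)
  have hH2 : 0 < Real.sqrt 2 * H := by positivity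
  have hLam := Lam_ge_one
  have hy' : 1 ≤ (Real.sqrt 2 * H) ^ 2 * (2 * Real.pi / α) ^ 2 / 16 := by
    rw [mul_pow, hs2]
    have : 0 ≤ H ^ 2 * (2 * Real.pi / α) ^ 2 / 16 := by positivity
    linarith
  have hm := mass_le α β τ (Real.sqrt 2 * H) hα hH2 hy'
  have hm2 : Lam * Real.exp (-((Real.sqrt 2 * H) ^ 2 * (2 * Real.pi / α) ^ 2 / 16)) ≤ 1 := by
    refine le_trans ?_ hy2
    refine mul_le_mul_of_nonneg_left ?_ (by linarith)
    apply Real.exp_le_exp.mpr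
    rw [mul_pow, hs2]
    have : 0 ≤ H ^ 2 * (2 * Real.pi / α) ^ 2 / 16 := by positivity
    linarith
  have hsum := gwk_summable α β τ (Real.sqrt 2 * H) hα hH2
  set E := Real.exp (-(R ^ 2 / (2 * H ^ 2))) with hE
  have hE0 : 0 < E := Real.exp_pos _
  have hsub : Summable fun k : (((Kw α β τ R : Finset ℤ) : Set ℤ)ᶜ : Set ℤ) =>
      (B * (3 / 2 * E)) * gw τ (Real.sqrt 2 * H) (α * (k : ℤ) + β) :=
    (hsum.subtype _).mul_left _
  have hb : ∀ k : (((Kw α β τ R : Finset ℤ) : Set ℤ)ᶜ : Set ℤ),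
      ‖F (α * (k : ℤ) + β) * (gw τ H (α * (k : ℤ) + β) : ℂ)‖ ≤
        (B * (3 / 2 * E)) * gw τ (Real.sqrt 2 * H) (α * (k : ℤ) + β) := by
    intro k
    have hk : (k : ℤ) ∉ Kw α β τ R := fun h => k.2 (by exact_mod_cast h)
    rw [mem_Kw hα] at hk
    have h1 := gw_outside τ H R _ hH hR hk
    rw [norm_mul, Complex.norm_real, Real.norm_of_nonneg (gw_nonneg _ _ _ hH)]
    calc _ ≤ B * ((3 / 2 * E) * gw τ (Real.sqrt 2 * H) (α * (k : ℤ) + β)) :=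
          mul_le_mul (hF _) h1 (gw_nonneg _ _ _ hH) hB
      _ = _ := by ring
  rw [norm_mul, Complex.norm_real, Real.norm_of_nonneg hα.le]
  have h1 := tsum_of_norm_bounded hsub.hasSum hb
  rw [tsum_mul_left] at h1
  have h2 : ∑' k : (((Kw α β τ R : Finset ℤ) : Set ℤ)ᶜ : Set ℤ), gw τ (Real.sqrt 2 * H) (α * (k : ℤ) + β) ≤
      ∑' k : ℤ, gw τ (Real.sqrt 2 * H) (α * k + β) :=
    Summable.tsum_subtype_le (fun k : ℤ => gw τ (Real.sqrt 2 * H) (α * k + β)) _ (fun k => gw_nonneg _ _ _ hH2) hsum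
  calc α * ‖∑' k : (((Kw α β τ R : Finset ℤ) : Set ℤ)ᶜ : Set ℤ), F (α * (k : ℤ) + β) * (gw τ H (α * (k : ℤ) + β) : ℂ)‖ ≤
      α * (B * (3 / 2 * E) * ∑' k : ℤ, gw τ (Real.sqrt 2 * H) (α * k + β)) := by
        refine mul_le_mul_of_nonneg_left (h1.trans ?_) hα.le
        exact mul_le_mul_of_nonneg_left h2 (by positivity)
    _ = B * (3 / 2 * E) * (α * ∑' k : ℤ, gw τ (Real.sqrt 2 * H) (α * k + β)) := by ring
    _ ≤ B * (3 / 2 * E) * 2 := by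
        refine mul_le_mul_of_nonneg_left (by linarith) (by positivity)
    _ = _ := by ring

lemma sum_Kw_le (α β τ R : ℝ) (hα : 0 < α) (G : ℤ → ℝ) (hG : ∀ k, 0 ≤ G k)
    (hs : Summable G) : α * ∑ k ∈ Kw α β τ R, G k ≤ α * ∑' k : ℤ, G k :=
  mul_le_mul_of_nonneg_left (hs.sum_le_tsum _ fun k _ => hG k) hα.le

set_option maxHeartbeats 1000000 in
theorem ap_core (q : ℕ) (hq : 2 ≤ q) (J : ℕ) (hJ : (q:ℝ) / 2 ≤ J) (α β : ℝ) (hα : 0 < α)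
    (P : ℕ) (hP : 1 ≤ P)
    (N X Z ρ τ H R ε e₁ μ C Ω σ : ℝ) (hσ0 : 0 ≤ σ) (hσ1 : σ ≤ 1) (M : ℕ) (hN : 1 ≤ N) (hNX : N ^ q ≤ X) (hZX : Z ≤ X)
    (hρ : 0 < ρ) (hρ1 : ρ ≤ 1 / 2) (hH : 0 < H) (hR : 0 ≤ R) (he₁ : 0 ≤ e₁) (hμ : 0 < μ) (hC : 0 ≤ C)
    (hZ : N ^ q * Real.exp (Ω + 1) ≤ Z) (hρ2 : 2 * ρ ≤ 1 / (Z * N ^ q))
    (hΩ : N ^ q * Real.exp 1 ≤ Real.exp Ω)
    (hM : Real.log (N ^ (q - 2) * (P * X)) + 1 ≤ 2 * Real.pi / α * (M + 1))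
    (hy : 1 ≤ H ^ 2 * (2 * Real.pi / α) ^ 2 / 16)
    (hy2 : Lam * Real.exp (-(H ^ 2 * (2 * Real.pi / α) ^ 2 / 16)) ≤ 1)
    (hC4 : ∀ n : ℕ, 1 ≤ n → dv ((q:ℝ) / 2 + 1) n * (Real.sqrt n)⁻¹ ≤ C * (n:ℝ) ^ (-σ))
    (Γ : ℤ → ℝ) (hΓ0 : ∀ m, 0 ≤ Γ m)
    (hΓ : ∀ m : ℤ, m ≠ 0 → ∀ a b : ℕ, 1 ≤ a → 1 ≤ b → a.Coprime b → a.Coprime P → b.Coprime P →
      |fr α m - Real.log a + Real.log b| < ρ →
      dv (q / 2) a * dv (q / 2) b * (Real.sqrt a)⁻¹ * (Real.sqrt b)⁻¹ ≤ Γ m)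
    (hε : 2 * ∑ m ∈ (Icc (-(M:ℤ)) M).erase 0, Γ m ≤ ε)
    (happ : ∀ t ∈ Set.Ioc (τ - R) (τ + R), ‖zl t - zX X t‖ ≤ e₁)
    (e0 W1 W2 : ℝ) (he0 : e0 = gq H ρ + Lam * Real.exp (-(H ^ 2 * (2 * Real.pi / α) ^ 2 / 16)))
    (hW1 : W1 = 2 * ((2 * M + 1) * (N ^ (J + 1) * (2 * C * (9 * ρ * (N ^ (q - 2) * (P * X)) ^ (1 - σ) +
      Real.exp (-(Ω * σ)))))))
    (hW2 : W2 = 2 * ((2 * M + 1) * ((N ^ q) ^ (q + J + 1) * (2 * C * (9 * ρ * (N ^ (q - 2) * (P * X)) ^ (1 - σ) +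
      Real.exp (-(Ω * σ))))))) :
    SP (q / 2) P ⌊N⌋₊ - ε * (∑ v ∈ Icc 1 ⌊N ^ q⌋₊, dv (q / 2) v ^ 2 / v) - W1 -
      ((N ^ (q - 2) * (P * X)) ^ (q + 3) * N ^ (J + 1)) * e0 -
      ((N ^ (q - 2) * (P * X)) ^ (q + 3) * N ^ (J + 1)) * (3 * Real.exp (-(R ^ 2 / (2 * H ^ 2)))) -
      2 * (e₁ * (P * N ^ (q - 2) * N ^ (J + 1))) ≤
    μ * (2 * (1 + ε) * (∑ v ∈ Icc 1 ⌊N ^ q⌋₊, dv (q / 2) v ^ 2 / v) +
        2 * (W2 + (N ^ q) ^ (2 * (q + J + 1)) * e0)) +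
      (μ⁻¹) ^ (q - 1) * P ^ q *
        (α * ∑ k ∈ Kw α β τ R, ‖zl (α * k + β)‖ ^ q * gw τ H (α * k + β)) := by
  set κ : ℝ := (q:ℝ) / 2 with hκdef
  have hqr : (2:ℝ) ≤ q := by exact_mod_cast hq
  have hκ : 1 ≤ κ := by rw [hκdef]; linarith
  have hκ0 : 0 ≤ κ := by linarith
  have hLam := Lam_ge_one
  have hNN : N ≤ N ^ q := by
    calc N = N ^ 1 := (pow_one N).symm
      _ ≤ N ^ q := pow_le_pow_right₀ hN (by omega)
  have hX1 : 1 ≤ X := hN.trans (hNN.trans hNX)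
  have hNX' : N ≤ X := hNN.trans hNX
  have hY1 : 1 ≤ N ^ q := one_le_pow₀ hN
  have hPr : (1:ℝ) ≤ P := by exact_mod_cast hP
  set Y := N ^ q with hY
  set Xf := N ^ (q - 2) * (P * X) with hXf
  have hXf1 : 1 ≤ Xf := by
    rw [hXf]
    have h1 : 1 ≤ N ^ (q - 2) := one_le_pow₀ hN
    have h2 : 1 ≤ (P:ℝ) * X := one_le_mul_of_one_le_of_one_le hPr hX1
    exact one_le_mul_of_one_le_of_one_le h1 h2
  have hXXf : X ≤ Xf := by
    rw [hXf]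
    have h1 : 1 ≤ N ^ (q - 2) := one_le_pow₀ hN
    have h2 : X ≤ (P:ℝ) * X := by nlinarith
    calc X ≤ (P:ℝ) * X := h2
      _ ≤ N ^ (q - 2) * (P * X) := by
          have : 0 ≤ (P:ℝ) * X := by positivity
          nlinarith
  have hYXf : Y ≤ Xf := hNX.trans hXXf
  have hMY : Real.log Y + 1 ≤ 2 * Real.pi / α * (M + 1) := by
    have := Real.log_le_log (by linarith) hYXf
    linarith
  -- the three functions
  set B := Bf q P N X with hB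
  set D := cA P N κ with hD
  set A := cA P N (1 / 2) with hA
  have hBle : ∀ n : ℕ, (n:ℝ) ≤ Z → |B n| ≤ dv κ n ∧ (B n ≠ 0 → n.Coprime P) := fun n hn =>
    Bf_le q hq P N X n (hn.trans hZX)
  have hDle : ∀ n : ℕ, |D n| ≤ dv κ n ∧ (D n ≠ 0 → n.Coprime P) := by
    intro n
    have h1 := cA_nonneg P N hκ0 n
    have h2 := cA_le P N hκ0 n
    refine ⟨?_, fun h => ?_⟩
    · rw [abs_of_nonneg h1]
      exact h2.trans (xA_le P hκ0 n)
    · apply xA_coprime (P := P) (α := κ)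
      intro h0
      rw [h0] at h2
      exact h (le_antisymm h2 h1)
  have hAle : ∀ n : ℕ, |(A ^ q : ArithmeticFunction ℝ) n| ≤ dv κ n ∧
      ((A ^ q : ArithmeticFunction ℝ) n ≠ 0 → n.Coprime P) := by
    intro n
    have h1 := cA_pow_le P N (α := 1 / 2) (by norm_num) q n
    have e : (q:ℝ) * (1 / 2) = κ := by rw [hκdef]; ring
    rw [e] at h1
    refine ⟨?_, fun h => ?_⟩
    · rw [abs_of_nonneg h1.1]
      exact h1.2.trans (xA_le P hκ0 n)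
    · apply xA_coprime (P := P) (α := κ)
      intro h0
      rw [h0] at h1
      exact h (le_antisymm h1.2 h1.1)
  have hB4 := quarter_of hC4 (f := B) (fun n => Bf_dv q hq P N X n)
  have hA4 := quarter_of hC4 (f := (A ^ q : ArithmeticFunction ℝ)) (fun n => (hAle n).1.trans
    (dv_mono hκ0 (by linarith) n))
  have hD4 := quarter_of hC4 (f := D) (fun n => (hDle n).1.trans (dv_mono hκ0 (by linarith) n))
  -- l1 bounds
  have hlB : l1 B Xf ≤ Xf ^ (q + 3) := l1_PB (PB_Bf q P N X) hXf1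
  have hDD : ∀ t : ℝ, Dp D Y (1 / 2 + t * Complex.I) = Dp D N (1 / 2 + t * Complex.I) := fun t =>
    Dp_mono D N Y hNN (cA_supp P N κ) _
  have hlD : l1 D N ≤ N ^ (J + 1) := l1_PB (PB_cA P N hκ0 hJ) hN
  have hlDY : l1 D Y = l1 D N := by
    unfold l1
    have hsub : Icc 1 ⌊N⌋₊ ⊆ Icc 1 ⌊Y⌋₊ := Icc_subset_Icc_right (Nat.floor_le_floor hNN)
    symm
    refine sum_subset hsub fun n hn hn' => ?_
    rw [mem_Icc] at hn hn'
    have : ⌊N⌋₊ < n := by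
      by_contra h
      exact hn' ⟨hn.1, by omega⟩
    rw [hD, cA_supp P N _ n (Nat.lt_of_floor_lt this), abs_zero]
  have hlA : l1 A N ≤ N := by
    have := l1_PB (PB_cA_one P N (α := 1 / 2) (by norm_num) (by norm_num)) hN
    rw [zero_add, pow_one] at this
    exact this
  have hlM : l1 (muP P) P ≤ P := by
    have := l1_PB (PB_muP P) hPr
    rw [zero_add, pow_one] at this
    exact this
  have hlAq : l1 (A ^ q : ArithmeticFunction ℝ) Y ≤ Y ^ (q + J + 1) := by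
    have h1 := l1_PB ((PB_cA_one P N (α := 1 / 2) (by norm_num) (by norm_num)).pow q) hY1
    refine h1.trans (pow_le_pow_right₀ hY1 (by simp))
  have hlDY2 : l1 D Y ≤ Y ^ (q + J + 1) := by
    have h1 := l1_PB (PB_cA P N hκ0 hJ) hY1
    exact h1.trans (pow_le_pow_right₀ hY1 (by omega))
  set U := ∑ v ∈ Icc 1 ⌊Y⌋₊, dv κ v ^ 2 / v with hU
  have hU0 : 0 ≤ U := sum_nonneg fun v _ => by positivity
  have hgq := gq_nonneg H ρ
  have he00 : 0 ≤ e0 := by rw [he0]; positivity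
  -- main term
  set F : ℝ → ℂ := fun t => Dp B Xf (1 / 2 + (t : ℂ) * Complex.I) *
      (starRingEnd ℂ) (Dp D Y (1 / 2 + (t : ℂ) * Complex.I)) with hF
  have hDB : ∀ t : ℝ, ‖Dp B Xf (1 / 2 + t * Complex.I)‖ ≤ Xf ^ (q + 3) := fun t =>
    (Dp_line_norm _ _ _).trans hlB
  have hDDn : ∀ t : ℝ, ‖Dp D Y (1 / 2 + t * Complex.I)‖ ≤ N ^ (J + 1) := fun t => by
    rw [hDD]; exact (Dp_line_norm _ _ _).trans hlD
  have hDAn : ∀ t : ℝ, ‖Dp A N (1 / 2 + t * Complex.I)‖ ≤ N := fun t =>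
    (Dp_line_norm _ _ _).trans hlA
  have hDMn : ∀ t : ℝ, ‖Dp (muP P) P (1 / 2 + t * Complex.I)‖ ≤ P := fun t =>
    (Dp_line_norm _ _ _).trans hlM
  have hFn : ∀ t : ℝ, ‖F t‖ ≤ Xf ^ (q + 3) * N ^ (J + 1) := by
    intro t
    rw [hF]
    simp only
    rw [norm_mul, RCLike.norm_conj]
    exact mul_le_mul (hDB t) (hDDn t) (norm_nonneg _) (by positivity)
  have hFs : Summable fun k : ℤ => F (α * k + β) * (gw τ H (α * k + β) : ℂ) :=
    bdd_summable α β τ H hα hH _ _ fun k => hFn _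
  have hmain : SP κ P ⌊N⌋₊ - ε * U - W1 - (Xf ^ (q + 3) * N ^ (J + 1)) * e0 ≤
      ‖(α : ℂ) * ∑' k : ℤ, F (α * k + β) * (gw τ H (α * k + β) : ℂ)‖ := by
    have h1 := ap_mean hκ P α β τ H hα hH B D Xf Y Z ρ C Ω σ hσ0 hσ1 M hC hY1 hYXf hρ hρ1 hZ hρ2 hΩ hM hy hy2
      hBle hB4 hDle Γ hΓ0 hΓ
    rw [BC_sum q hq P N X Y hN hNX' hNN, ← he0] at h1
    have h2 : ‖((SP κ P ⌊N⌋₊ : ℝ) : ℂ)‖ = SP κ P ⌊N⌋₊ := by
      rw [Complex.norm_real, Real.norm_of_nonneg (SP_nonneg _ _ _)]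
    have h3 := norm_sub_norm_le ((SP κ P ⌊N⌋₊ : ℝ) : ℂ)
      ((α : ℂ) * ∑' k : ℤ, F (α * k + β) * (gw τ H (α * k + β) : ℂ))
    rw [h2, norm_sub_rev] at h3
    have h4 : (2 * ∑ m ∈ (Icc (-(M:ℤ)) M).erase 0, Γ m) * U ≤ ε * U := by gcongr
    have h5 : 2 * ((2 * (M:ℝ) + 1) * (l1 D Y * (2 * C * (9 * ρ * Xf ^ (1 - σ) + Real.exp (-(Ω * σ)))))) ≤ W1 := by
      rw [hW1, hlDY]
      gcongr
    have h6 : l1 B Xf * l1 D Y * e0 ≤ (Xf ^ (q + 3) * N ^ (J + 1)) * e0 := by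
      have := l1_nonneg B Xf
      have := l1_nonneg D N
      rw [hlDY]
      gcongr
    linarith
  -- splitting
  set K := Kw α β τ R with hK
  have hsplit : (α : ℂ) * ∑' k : ℤ, F (α * k + β) * (gw τ H (α * k + β) : ℂ) =
      (α : ℂ) * (∑ k ∈ K, F (α * k + β) * (gw τ H (α * k + β) : ℂ)) +
      (α : ℂ) * ∑' k : (((K : Finset ℤ) : Set ℤ)ᶜ : Set ℤ), F (α * (k : ℤ) + β) * (gw τ H (α * (k : ℤ) + β) : ℂ) := by
    rw [← mul_add]
    congr 1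
    exact (hFs.sum_add_tsum_compl (s := K)).symm
  have hout := outside_bound α β τ H R (Xf ^ (q + 3) * N ^ (J + 1)) hα hH hR (by positivity) hy hy2 F hFn
  rw [← hK] at hout
  -- replacing the truncated zeta function
  have hDBe : ∀ t : ℝ, Dp B Xf (1 / 2 + t * Complex.I) =
      Dp A N (1 / 2 + t * Complex.I) ^ (q - 2) * (Dp (muP P) P (1 / 2 + t * Complex.I) * zX X t) := fun t =>
    Bf_Dp q P hP N X hN (by linarith) _
  set F' : ℝ → ℂ := fun t => (Dp A N (1 / 2 + t * Complex.I) ^ (q - 2) *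
      (Dp (muP P) P (1 / 2 + t * Complex.I) * zl t)) *
      (starRingEnd ℂ) (Dp D Y (1 / 2 + t * Complex.I)) with hF'
  have hmass := mass_le α β τ H hα hH hy
  have hgws := gwk_summable α β τ H hα hH
  have hgw0 : ∀ k : ℤ, 0 ≤ gw τ H (α * k + β) := fun k => gw_nonneg _ _ _ hH
  have hmK : α * ∑ k ∈ K, gw τ H (α * k + β) ≤ 2 := by
    have := sum_Kw_le α β τ R hα _ hgw0 hgws
    rw [← hK] at this
    linarith
  have happx : ‖(α : ℂ) * (∑ k ∈ K, F (α * k + β) * (gw τ H (α * k + β) : ℂ)) -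
      (α : ℂ) * (∑ k ∈ K, F' (α * k + β) * (gw τ H (α * k + β) : ℂ))‖ ≤
      2 * (e₁ * (P * N ^ (q - 2) * N ^ (J + 1))) := by
    rw [← mul_sub, ← sum_sub_distrib, norm_mul, Complex.norm_real, Real.norm_of_nonneg hα.le]
    have hterm : ∀ k ∈ K, ‖F (α * k + β) * (gw τ H (α * k + β) : ℂ) -
        F' (α * k + β) * (gw τ H (α * k + β) : ℂ)‖ ≤
        (e₁ * (P * N ^ (q - 2) * N ^ (J + 1))) * gw τ H (α * k + β) := by
      intro k hk
      rw [hK, mem_Kw hα] at hk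
      set t := α * (k:ℝ) + β with ht
      have e1 : F t * (gw τ H t : ℂ) - F' t * (gw τ H t : ℂ) = ((Dp A N (1 / 2 + t * Complex.I) ^ (q - 2) *
              (Dp (muP P) P (1 / 2 + t * Complex.I) * (zX X t - zl t))) *
              (starRingEnd ℂ) (Dp D Y (1 / 2 + t * Complex.I))) * (gw τ H t : ℂ) := by
        rw [hF, hF']
        simp only
        rw [hDBe]
        ring
      rw [e1, norm_mul, norm_mul, norm_mul, norm_mul, RCLike.norm_conj, norm_pow,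
        Complex.norm_real, Real.norm_of_nonneg (gw_nonneg τ H t hH)]
      have b1 := happ t hk
      rw [norm_sub_rev] at b1
      have := gw_nonneg τ H t hH
      have a3 := hDAn t
      have a4 := hDDn t
      have a5 := hDMn t
      calc _ ≤ (N ^ (q - 2) * (P * e₁)) * N ^ (J + 1) * gw τ H t := by gcongr
        _ = _ := by ring
    calc α * ‖∑ k ∈ K, (F (α * k + β) * (gw τ H (α * k + β) : ℂ) -
        F' (α * k + β) * (gw τ H (α * k + β) : ℂ))‖ ≤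
        α * ∑ k ∈ K, (e₁ * (P * N ^ (q - 2) * N ^ (J + 1))) * gw τ H (α * k + β) := by
          refine mul_le_mul_of_nonneg_left ?_ hα.le
          exact norm_sum_le_of_le _ hterm
      _ = (e₁ * (P * N ^ (q - 2) * N ^ (J + 1))) * (α * ∑ k ∈ K, gw τ H (α * k + β)) := by
          rw [← mul_sum]; ring
      _ ≤ (e₁ * (P * N ^ (q - 2) * N ^ (J + 1))) * 2 := by gcongr
      _ = _ := by ring
  -- Young
  set VA : ℤ → ℝ := fun k => ‖Dp (A ^ q : ArithmeticFunction ℝ) Y (1 / 2 + ((α * k + β : ℝ) : ℂ) * Complex.I)‖ ^ 2 *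
    gw τ H (α * k + β) with hVA
  set VD : ℤ → ℝ := fun k => ‖Dp D Y (1 / 2 + ((α * k + β : ℝ) : ℂ) * Complex.I)‖ ^ 2 *
    gw τ H (α * k + β) with hVD
  have hA1 : Summable VA := sq_summable α β τ H hα hH _ _
  have hD1 : Summable VD := sq_summable α β τ H hα hH _ _
  have hA2 := ap_sq hκ P α β τ H hα hH (A ^ q : ArithmeticFunction ℝ) Y Z ρ C Ω σ hσ0 hσ1 M hC hY1 hρ hρ1 hZ hρ2 hΩ
    hMY hy hy2 hAle hA4 Γ hΓ0 hΓ
  have hD2 := ap_sq hκ P α β τ H hα hH D Y Z ρ C Ω σ hσ0 hσ1 M hC hY1 hρ hρ1 hZ hρ2 hΩ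
    hMY hy hy2 hDle hD4 Γ hΓ0 hΓ
  rw [← he0] at hA2 hD2
  have hDAq : ∀ t : ℝ, Dp (A ^ q : ArithmeticFunction ℝ) Y (1 / 2 + t * Complex.I) =
      Dp A N (1 / 2 + t * Complex.I) ^ q := fun t =>
    (Dp_pow A N hN (cA_supp P N (1 / 2)) (1 / 2 + t * Complex.I) q).2
  have hVA0 : ∀ k, 0 ≤ VA k := fun k => mul_nonneg (by positivity) (hgw0 k)
  have hVD0 : ∀ k, 0 ≤ VD k := fun k => mul_nonneg (by positivity) (hgw0 k)
  have hF'b : ‖(α : ℂ) * (∑ k ∈ K, F' (α * k + β) * (gw τ H (α * k + β) : ℂ))‖ ≤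
      μ * (α * (∑' k, VA k) + α * ∑' k, VD k) + (μ⁻¹) ^ (q - 1) * P ^ q *
        (α * ∑ k ∈ K, ‖zl (α * k + β)‖ ^ q * gw τ H (α * k + β)) := by
    rw [norm_mul, Complex.norm_real, Real.norm_of_nonneg hα.le]
    have hterm : ∀ k ∈ K, ‖F' (α * k + β) * (gw τ H (α * k + β) : ℂ)‖ ≤
        μ * (VA k + VD k) + (μ⁻¹) ^ (q - 1) * P ^ q * (‖zl (α * k + β)‖ ^ q * gw τ H (α * k + β)) := by
      intro k _
      rw [hVA, hVD]
      simp only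
      set t := α * (k:ℝ) + β with ht
      rw [hF']
      simp only
      rw [norm_mul, norm_mul, norm_mul, norm_mul, RCLike.norm_conj, norm_pow,
        Complex.norm_real, Real.norm_of_nonneg (gw_nonneg τ H t hH)]
      rw [hDAq, norm_pow]
      have hg := gw_nonneg τ H t hH
      have a5 := hDMn t
      set x := ‖zl t‖ with hx
      set y := ‖Dp A N (1 / 2 + t * Complex.I)‖ with hy
      set z := ‖Dp D Y (1 / 2 + t * Complex.I)‖ with hz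
      set w := ‖Dp (muP P) P (1 / 2 + t * Complex.I)‖ with hw
      have hw0 : 0 ≤ w := norm_nonneg _
      have hx0 : 0 ≤ x := norm_nonneg _
      have hyo := young q hq (w * x) y z μ (by positivity) (norm_nonneg _) (norm_nonneg _) hμ
      have hpow : (w * x) ^ q ≤ P ^ q * x ^ q := by
        rw [mul_pow]
        gcongr
      calc (y ^ (q - 2) * (w * x)) * z * gw τ H t =
          ((w * x) * y ^ (q - 2) * z) * gw τ H t := by ring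
        _ ≤ (μ * (y ^ (2 * q) + z ^ 2) + (μ⁻¹) ^ (q - 1) * (w * x) ^ q) * gw τ H t := by
            gcongr
        _ = μ * (y ^ (2 * q) * gw τ H t + z ^ 2 * gw τ H t) +
            (μ⁻¹) ^ (q - 1) * ((w * x) ^ q * gw τ H t) := by ring
        _ ≤ μ * (y ^ (2 * q) * gw τ H t + z ^ 2 * gw τ H t) +
            (μ⁻¹) ^ (q - 1) * ((P ^ q * x ^ q) * gw τ H t) := by gcongr
        _ = _ := by
            rw [← pow_mul, mul_comm q 2]
            ring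
    have h1 := norm_sum_le_of_le _ hterm
    rw [sum_add_distrib, ← mul_sum, ← mul_sum, sum_add_distrib] at h1
    have h2 := mul_le_mul_of_nonneg_left h1 hα.le
    have h3 := sum_Kw_le α β τ R hα VA hVA0 hA1
    have h4 := sum_Kw_le α β τ R hα VD hVD0 hD1
    rw [← hK] at h3 h4
    calc _ ≤ _ := h2
      _ = μ * (α * (∑ k ∈ K, VA k) + α * (∑ k ∈ K, VD k)) + (μ⁻¹) ^ (q - 1) * P ^ q *
        (α * ∑ k ∈ K, ‖zl (α * k + β)‖ ^ q * gw τ H (α * k + β)) := by ring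
      _ ≤ _ := by
        have : μ * (α * (∑ k ∈ K, VA k) + α * (∑ k ∈ K, VD k)) ≤
            μ * (α * (∑' k, VA k) + α * (∑' k, VD k)) := by gcongr
        linarith
  -- conclusion
  have hYXp : Y ^ (1 - σ) ≤ Xf ^ (1 - σ) := Real.rpow_le_rpow (by linarith) hYXf (by linarith)
  have hY0 : 0 ≤ Y := by linarith
  have hVb : ∀ f : ℕ → ℝ, l1 f Y ≤ Y ^ (q + J + 1) →
      (1 + 2 * ∑ m ∈ (Icc (-(M:ℤ)) M).erase 0, Γ m) * U +
      2 * ((2 * M + 1) * (l1 f Y * (2 * C * (9 * ρ * Y ^ (1 - σ) + Real.exp (-(Ω * σ)))))) +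
      l1 f Y * l1 f Y * e0 ≤ (1 + ε) * U + (W2 + Y ^ (2 * (q + J + 1)) * e0) := by
    intro f hf
    have hf0 := l1_nonneg f Y
    have h1 : (1 + 2 * ∑ m ∈ (Icc (-(M:ℤ)) M).erase 0, Γ m) * U ≤ (1 + ε) * U := by gcongr
    have h2 : 2 * ((2 * (M:ℝ) + 1) * (l1 f Y * (2 * C * (9 * ρ * Y ^ (1 - σ) + Real.exp (-(Ω * σ)))))) ≤ W2 := by
      rw [hW2]
      gcongr
    have h3 : l1 f Y * l1 f Y ≤ Y ^ (2 * (q + J + 1)) := by
      rw [two_mul, pow_add]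
      exact mul_le_mul hf hf hf0 (by positivity)
    have h4 : l1 f Y * l1 f Y * e0 ≤ Y ^ (2 * (q + J + 1)) * e0 := by gcongr
    linarith
  have hAb := hA2.trans (hVb _ hlAq)
  have hDb := hD2.trans (hVb _ hlDY2)
  have hfin1 : μ * (α * (∑' k, VA k) + α * ∑' k, VD k) ≤ μ * (2 * (1 + ε) * U +
        2 * (W2 + Y ^ (2 * (q + J + 1)) * e0)) := by
    refine mul_le_mul_of_nonneg_left ?_ hμ.le
    linarith
  have htri : ‖(α : ℂ) * ∑' k : ℤ, F (α * k + β) * (gw τ H (α * k + β) : ℂ)‖ ≤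
      ‖(α : ℂ) * (∑ k ∈ K, F' (α * k + β) * (gw τ H (α * k + β) : ℂ))‖ +
      ‖(α : ℂ) * (∑ k ∈ K, F (α * k + β) * (gw τ H (α * k + β) : ℂ)) -
      (α : ℂ) * (∑ k ∈ K, F' (α * k + β) * (gw τ H (α * k + β) : ℂ))‖ +
      ‖(α : ℂ) * ∑' k : (((K : Finset ℤ) : Set ℤ)ᶜ : Set ℤ), F (α * (k : ℤ) + β) * (gw τ H (α * (k : ℤ) + β) : ℂ)‖ := by
    rw [hsplit]
    generalize (α : ℂ) * ∑' k : (((K : Finset ℤ) : Set ℤ)ᶜ : Set ℤ), F (α * (k : ℤ) + β) * (gw τ H (α * (k : ℤ) + β) : ℂ) = z3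
    generalize (α : ℂ) * (∑ k ∈ K, F (α * k + β) * (gw τ H (α * k + β) : ℂ)) = z1
    generalize (α : ℂ) * (∑ k ∈ K, F' (α * k + β) * (gw τ H (α * k + β) : ℂ)) = z2
    calc ‖z1 + z3‖ = ‖z2 + (z1 - z2) + z3‖ := by congr 1; ring
      _ ≤ _ := (norm_add_le _ _).trans (add_le_add (norm_add_le _ _) le_rfl)
  linarith

end

end Pool.Agent.R311.AP
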