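import Pool.Agent.R311.AP.T

set_option autoImplicit false

/-! Near coincidences of the dual frequencies with logarithms of rationals. -/

namespace Pool.Agent.R311.AP

open Finset MeasureTheory Filter Topology
open Pool.Agent.H306R2 Pool.Agent.R311.BS

noncomputable section

lemma geo_int (K r : ℝ) (hr0 : 0 ≤ r) (hr1 : r < 1) : Summable fun m : ℤ => K * r ^ m.natAbs := by
  have hg := (summable_geometric_of_lt_one hr0 hr1).mul_left K
  refine Summable.of_nat_of_neg ?_ ?_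
  · simpa using hg
  · simpa using hg

/-- sums of the bounds for the near coincidences -/
theorem gam_sum (K r : ℝ) (hK : 0 ≤ K) (hr0 : 0 ≤ r) (hr1 : r < 1) (ε : ℝ) (hε : 0 < ε) :
    ∃ (M₀ : ℕ) (ε₁ : ℝ), 0 < ε₁ ∧ ∀ M : ℕ,
      ∑ m ∈ (Icc (-(M:ℤ)) M).erase 0, (if m ∈ Icc (-(M₀:ℤ)) M₀ then ε₁ else K * r ^ m.natAbs) ≤ ε := by
  classical
  have hs := geo_int K r hr0 hr1
  rw [summable_iff_vanishing_norm] at hs
  obtain ⟨s, hs⟩ := hs (ε / 2) (by positivity)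
  obtain ⟨M₀, hM₀⟩ : ∃ M₀ : ℕ, ∀ m ∈ s, m ∈ Icc (-(M₀:ℤ)) M₀ := by
    refine ⟨s.sup Int.natAbs, fun m hm => ?_⟩
    have h1 : m.natAbs ≤ s.sup Int.natAbs := le_sup (f := Int.natAbs) hm
    rw [mem_Icc]
    omega
  refine ⟨M₀, ε / (2 * (2 * M₀ + 1)), by positivity, fun M => ?_⟩
  rw [sum_ite]
  have h1 : ∑ _m ∈ ((Icc (-(M:ℤ)) M).erase 0).filter (fun m => m ∈ Icc (-(M₀:ℤ)) M₀),
      ε / (2 * (2 * (M₀:ℝ) + 1)) ≤ ε / 2 := by
    rw [sum_const, nsmul_eq_mul]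
    have h2 : (((Icc (-(M:ℤ)) M).erase 0).filter (fun m => m ∈ Icc (-(M₀:ℤ)) M₀)).card ≤ 2 * M₀ + 1 := by
      refine (card_le_card (t := Icc (-(M₀:ℤ)) M₀) fun m hm => ?_).trans ?_
      · rw [mem_filter] at hm
        exact hm.2
      · rw [Int.card_Icc]; omega
    have h3 : ((((Icc (-(M:ℤ)) M).erase 0).filter (fun m => m ∈ Icc (-(M₀:ℤ)) M₀)).card : ℝ) ≤ 2 * M₀ + 1 := by
      exact_mod_cast h2
    calc _ ≤ (2 * (M₀:ℝ) + 1) * (ε / (2 * (2 * (M₀:ℝ) + 1))) := by gcongr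
      _ = ε / 2 := by field_simp
  have h4 := hs (((Icc (-(M:ℤ)) M).erase 0).filter (fun m => m ∉ Icc (-(M₀:ℤ)) M₀)) (by
    rw [Finset.disjoint_left]
    intro m hm hms
    rw [mem_filter] at hm
    exact hm.2 (hM₀ m hms))
  have h5 := (le_abs_self _).trans h4.le
  linarith

lemma fr_eq (α : ℝ) (m : ℤ) : fr α m = th (fun _ : Fin 1 => 1 / α) (fun _ => m) := by
  unfold fr th
  simp
  ring

/-- distant near coincidences -/
lemma gam_far {κ : ℝ} (hκ : 0 ≤ κ) (α ρ K C : ℝ) (hα : 0 < α) (hρ : ρ ≤ 1) (hK : 0 ≤ K) (hC : 0 ≤ C)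
    (hK1 : ∀ n : ℕ, dv κ n * (Real.sqrt n)⁻¹ ≤ K)
    (hC4 : ∀ n : ℕ, 1 ≤ n → dv κ n * (Real.sqrt n)⁻¹ ≤ C * (n:ℝ) ^ (-(1 / 4) : ℝ))
    (m : ℤ) (a b : ℕ) (ha : 1 ≤ a) (hb : 1 ≤ b)
    (h : |fr α m - Real.log a + Real.log b| < ρ) :
    dv κ a * dv κ b * (Real.sqrt a)⁻¹ * (Real.sqrt b)⁻¹ ≤
      (K * C * Real.exp (1 / 4)) * Real.exp (-(2 * Real.pi / α / 4)) ^ m.natAbs := by
  have hnn : ∀ n : ℕ, 0 ≤ dv κ n * (Real.sqrt n)⁻¹ := fun n => mul_nonneg (dv_nonneg hκ n) (by positivity)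
  have e1 : dv κ a * dv κ b * (Real.sqrt a)⁻¹ * (Real.sqrt b)⁻¹ =
      (dv κ a * (Real.sqrt a)⁻¹) * (dv κ b * (Real.sqrt b)⁻¹) := by ring
  rw [e1]
  have ha0 : (0:ℝ) < a := by exact_mod_cast ha
  have hb0 : (0:ℝ) < b := by exact_mod_cast hb
  have hla : 0 ≤ Real.log a := Real.log_natCast_nonneg a
  have hlb : 0 ≤ Real.log b := Real.log_natCast_nonneg b
  have hh : 0 < 2 * Real.pi / α := by positivity
  have key : ∀ c : ℕ, 1 ≤ c → 2 * Real.pi / α * |(m:ℝ)| - 1 ≤ Real.log c →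
      dv κ c * (Real.sqrt c)⁻¹ ≤ C * (Real.exp (1 / 4) * Real.exp (-(2 * Real.pi / α / 4)) ^ m.natAbs) := by
    intro c hc hlog
    have hc0 : (0:ℝ) < c := by exact_mod_cast hc
    refine (hC4 c hc).trans ?_
    refine mul_le_mul_of_nonneg_left ?_ hC
    rw [Real.rpow_def_of_pos hc0, ← Real.exp_nat_mul, ← Real.exp_add]
    apply Real.exp_le_exp.mpr
    have e2 : ((m.natAbs : ℕ) : ℝ) = |(m:ℝ)| := by
      rw [Nat.cast_natAbs]; push_cast; rfl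
    rw [e2]
    linarith
  rw [abs_lt] at h
  unfold fr at h
  rcases le_or_gt 0 m with hm | hm
  · have hm' : |(m:ℝ)| = m := abs_of_nonneg (by exact_mod_cast hm)
    have h1 := key a ha (by rw [hm']; linarith)
    calc _ ≤ (C * (Real.exp (1 / 4) * Real.exp (-(2 * Real.pi / α / 4)) ^ m.natAbs)) * K :=
          mul_le_mul h1 (hK1 b) (hnn b) (by positivity)
      _ = _ := by ring
  · have hm' : |(m:ℝ)| = -m := abs_of_neg (by exact_mod_cast hm)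
    have h1 := key b hb (by rw [hm']; linarith)
    calc _ ≤ K * (C * (Real.exp (1 / 4) * Real.exp (-(2 * Real.pi / α / 4)) ^ m.natAbs)) :=
          mul_le_mul (hK1 a) h1 (hnn b) hK
      _ = _ := by ring

/-- all near coincidences -/
theorem gam_all {κ : ℝ} (hκ : 0 ≤ κ) (α : ℝ) (hα : 0 < α) :
    ∃ (s : Finset ℕ), (∀ p ∈ s, p.Prime) ∧ ∀ ε : ℝ, 0 < ε → ∃ Γ : ℤ → ℝ, (∀ m, 0 ≤ Γ m) ∧
      (∀ M : ℕ, 2 * ∑ m ∈ (Icc (-(M:ℤ)) M).erase 0, Γ m ≤ ε) ∧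
      ∀ᶠ ρ : ℝ in 𝓝[>] 0, ∀ m : ℤ, m ≠ 0 → ∀ a b : ℕ, 1 ≤ a → 1 ≤ b → a.Coprime b →
        a.Coprime (∏ p ∈ s, p) → b.Coprime (∏ p ∈ s, p) → |fr α m - Real.log a + Real.log b| < ρ →
        dv κ a * dv κ b * (Real.sqrt a)⁻¹ * (Real.sqrt b)⁻¹ ≤ Γ m := by
  obtain ⟨s, hs, hbad⟩ := bad_primes (fun _ : Fin 1 => 1 / α)
  obtain ⟨K, hK, hK1, hK2⟩ := dv_decay (κ := κ) hκ
  obtain ⟨C, hC, hC4⟩ := dv_quarter (κ := κ) hκ
  have hh : 0 < 2 * Real.pi / α := by positivity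
  refine ⟨s, hs, fun ε hε => ?_⟩
  obtain ⟨M₀, ε₁, hε₁, hsum⟩ := gam_sum (K * C * Real.exp (1 / 4)) (Real.exp (-(2 * Real.pi / α / 4)))
    (by positivity) (Real.exp_pos _).le (by rw [Real.exp_lt_one_iff]; linarith) (ε / 2) (by positivity)
  have hβ : ∀ m : Fin 1 → ℤ, th (fun _ : Fin 1 => 1 / α) m = 0 → m = 0 := by
    intro m hm
    have e : m = fun _ => m 0 := by
      funext i
      rw [Subsingleton.elim i 0]
    rw [e, ← fr_eq] at hm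
    unfold fr at hm
    rcases mul_eq_zero.mp hm with h | h
    · exact absurd h hh.ne'
    · rw [e]
      funext i
      exact_mod_cast h
  have hnear := near_small hκ (fun _ : Fin 1 => 1 / α) hβ (∏ p ∈ s, p) hbad K hK hK1 hK2 M₀ ε₁ hε₁
  refine ⟨fun m => if m ∈ Icc (-(M₀:ℤ)) M₀ then ε₁ else
    (K * C * Real.exp (1 / 4)) * Real.exp (-(2 * Real.pi / α / 4)) ^ m.natAbs, fun m => ?_, fun M => ?_, ?_⟩
  · beta_reduce
    split_ifs <;> positivity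
  · have := hsum M
    linarith
  · filter_upwards [hnear, Ioo_mem_nhdsGT (zero_lt_one' ℝ)] with ρ h1 h2 m hm a b ha hb hab haP hbP hlt
    beta_reduce
    split_ifs with hmM
    · rw [fr_eq] at hlt
      refine h1 (fun _ => m) ?_ (fun h => hm ?_) a b ha hb hab haP hbP hlt
      · unfold bx
        rw [Fintype.mem_piFinset]
        intro _
        exact hmM
      · exact congrFun h 0
    · exact gam_far hκ α ρ K C hα h2.2.le (by linarith) (by linarith) hK1 hC4 m a b ha hb hlt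

end

end Pool.Agent.R311.AP
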