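import Pool.Agent.R311.AP.U

set_option autoImplicit false

/-! Choice of the parameters for arithmetic progressions. -/

namespace Pool.Agent.R311.AP

open Finset MeasureTheory Filter Topology
open Pool.Agent.H306R2 Pool.Agent.R311.BS

noncomputable section

lemma fin_arith' {A B w1 e2 e3 e4 m w2 e7 G : ℝ} (h : A - B - w1 - e2 - e3 - e4 ≤ m + w2 + e7 + G)
    (hB : B ≤ A / 4) (h1 : w1 ≤ 1) (h2 : e2 ≤ 1) (h3 : e3 ≤ 1) (h4 : e4 ≤ 1) (h6 : w2 ≤ 1)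
    (h7 : e7 ≤ 1) (hm : m ≤ A / 4) (hA : 24 ≤ A) : A / 4 ≤ G := by linarith

lemma M_bound {a P T h Xf : ℝ} {M : ℕ} (ha : 0 < a) (ha1 : a ≤ 1) (hP : 1 ≤ P) (hT : 1 ≤ T) (hh : 0 < h)
    (hXf1 : 1 ≤ Xf) (hXf : Xf ≤ 10 * P * T ^ (1 + a)) (hM : M = ⌈(Real.log Xf + 1) / h⌉₊) :
    Real.log Xf + 1 ≤ h * (M + 1) ∧ (2 * (M:ℝ) + 1) ≤ (2 * ((20 * P / a + 1) / h + 1) + 1) * T ^ a := by
  have hT0 : 0 < T := by linarith
  have hlog : 0 ≤ Real.log Xf := Real.log_nonneg hXf1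
  have hTa : 1 ≤ T ^ a := Real.one_le_rpow hT ha.le
  constructor
  · have h1 : (Real.log Xf + 1) / h ≤ M := by rw [hM]; exact Nat.le_ceil _
    rw [div_le_iff₀ hh] at h1
    linarith
  · have h1 : (M:ℝ) ≤ (Real.log Xf + 1) / h + 1 := by
      rw [hM]; exact (Nat.ceil_lt_add_one (by positivity)).le
    have h2 : Xf ≤ 10 * P * T ^ (2:ℝ) := by
      refine hXf.trans ?_
      refine mul_le_mul_of_nonneg_left ?_ (by positivity)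
      exact Real.rpow_le_rpow_of_exponent_le hT (by linarith)
    have h3 : Real.log Xf ≤ Xf ^ (a / 2) / (a / 2) := Real.log_le_rpow_div (by linarith) (by positivity)
    have h4 : Xf ^ (a / 2) ≤ 10 * P * T ^ a := by
      calc Xf ^ (a / 2) ≤ (10 * P * T ^ (2:ℝ)) ^ (a / 2) := Real.rpow_le_rpow (by linarith) h2 (by positivity)
        _ = (10 * P) ^ (a / 2) * T ^ a := by
            rw [Real.mul_rpow (by positivity) (by positivity), ← Real.rpow_mul hT0.le]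
            congr 2
            ring
        _ ≤ (10 * P) ^ (1:ℝ) * T ^ a := by
            refine mul_le_mul_of_nonneg_right ?_ (by positivity)
            exact Real.rpow_le_rpow_of_exponent_le (by linarith) (by linarith)
        _ = _ := by rw [Real.rpow_one]
    have h5 : Real.log Xf ≤ (20 * P / a) * T ^ a := by
      calc Real.log Xf ≤ Xf ^ (a / 2) / (a / 2) := h3
        _ ≤ (10 * P * T ^ a) / (a / 2) := by gcongr
        _ = _ := by field_simp; ring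
    have h6 : (Real.log Xf + 1) / h ≤ ((20 * P / a + 1) / h) * T ^ a := by
      rw [div_mul_eq_mul_div]
      gcongr
      rw [add_mul, one_mul]
      linarith
    have h7 : (0:ℝ) ≤ (20 * P / a + 1) / h := by positivity
    nlinarith

lemma W_bound {P C CM T a e ρ Xf Ω σ Nk : ℝ} {M : ℕ} (he0 : 0 < e) (he1 : e ≤ 1 / 4) (ha : a = e / 64)
    (hP : 1 ≤ P) (hC : 0 ≤ C) (hT : 1 ≤ T) (hρ : ρ = T ^ (-(1 / 2 + e) + a)) (hXf1 : 1 ≤ Xf)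
    (hXf : Xf ≤ 10 * P * T ^ (1 + a)) (hΩ : Ω = Real.log T / 8) (hσ : σ = 1 / 2 - e / 8)
    (hCM : 0 ≤ CM) (hN0 : 0 ≤ Nk) (hNk : Nk ≤ T ^ a) (hM : 2 * (M:ℝ) + 1 ≤ CM * T ^ a) :
    2 * ((2 * (M:ℝ) + 1) * (Nk * (2 * C * (9 * ρ * Xf ^ (1 - σ) + Real.exp (-(Ω * σ)))))) ≤
      (4 * C * CM * (90 * P + 1)) * T ^ (-(3 * e / 32)) := by
  have hT0 : 0 < T := by linarith
  have h1 : Xf ^ (1 - σ) ≤ 10 * P * T ^ ((1 + a) * (1 - σ)) := by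
    calc Xf ^ (1 - σ) ≤ (10 * P * T ^ (1 + a)) ^ (1 - σ) :=
          Real.rpow_le_rpow (by linarith) hXf (by rw [hσ]; linarith)
      _ = (10 * P) ^ (1 - σ) * T ^ ((1 + a) * (1 - σ)) := by
          rw [Real.mul_rpow (by positivity) (by positivity), ← Real.rpow_mul hT0.le]
      _ ≤ (10 * P) ^ (1:ℝ) * T ^ ((1 + a) * (1 - σ)) := by
          refine mul_le_mul_of_nonneg_right ?_ (by positivity)
          exact Real.rpow_le_rpow_of_exponent_le (by linarith) (by rw [hσ]; linarith)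
      _ = _ := by rw [Real.rpow_one]
  have h2 : ρ * T ^ ((1 + a) * (1 - σ)) ≤ T ^ (-(e / 8)) := by
    rw [hρ, ← Real.rpow_add hT0]
    apply Real.rpow_le_rpow_of_exponent_le hT
    rw [ha, hσ]
    nlinarith
  have h3 : Real.exp (-(Ω * σ)) ≤ T ^ (-(e / 8)) := by
    rw [Real.rpow_def_of_pos hT0]
    apply Real.exp_le_exp.mpr
    have hlog : 0 ≤ Real.log T := Real.log_nonneg hT
    rw [hΩ, hσ]
    nlinarith
  have hρ0 : 0 < ρ := by rw [hρ]; positivity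
  have h4 : 9 * ρ * Xf ^ (1 - σ) + Real.exp (-(Ω * σ)) ≤ (90 * P + 1) * T ^ (-(e / 8)) := by
    calc 9 * ρ * Xf ^ (1 - σ) + Real.exp (-(Ω * σ)) ≤
        9 * ρ * (10 * P * T ^ ((1 + a) * (1 - σ))) + T ^ (-(e / 8)) := by gcongr
      _ = 90 * P * (ρ * T ^ ((1 + a) * (1 - σ))) + T ^ (-(e / 8)) := by ring
      _ ≤ 90 * P * T ^ (-(e / 8)) + T ^ (-(e / 8)) := by gcongr
      _ = _ := by ring
  have h5 : T ^ a * T ^ a * T ^ (-(e / 8)) = T ^ (-(3 * e / 32)) := by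
    rw [← Real.rpow_add hT0, ← Real.rpow_add hT0]
    congr 1
    rw [ha]
    ring
  calc 2 * ((2 * (M:ℝ) + 1) * (Nk * (2 * C * (9 * ρ * Xf ^ (1 - σ) + Real.exp (-(Ω * σ)))))) ≤
      2 * ((CM * T ^ a) * (T ^ a * (2 * C * ((90 * P + 1) * T ^ (-(e / 8)))))) := by gcongr
    _ = (4 * C * CM * (90 * P + 1)) * (T ^ a * T ^ a * T ^ (-(e / 8))) := by ring
    _ = _ := by rw [h5]

lemma e0_bound {a b h T H ρ K : ℝ} {k : ℕ} (hT : 1 ≤ T) (hH : H = T ^ b) (hρ : ρ = T ^ (-b + a)) {A : ℝ}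
    (_hA0 : 0 ≤ A) (hA : A ≤ K * T ^ k)
    (h1 : (2 * K) * (T ^ k * Real.exp (-(1 / 4 * T ^ (2 * a)))) ≤ 1)
    (h2 : (2 * K * Lam) * (T ^ k * Real.exp (-((h ^ 2 / 16) * T ^ (2 * b)))) ≤ 1) :
    A * (gq H ρ + Lam * Real.exp (-(H ^ 2 * h ^ 2 / 16))) ≤ 1 := by
  have hT0 : 0 < T := by linarith
  have hLam := Lam_ge_one
  have hgq : gq H ρ = Real.exp (-(1 / 4 * T ^ (2 * a))) := by
    unfold gq
    congr 1
    rw [hH, hρ, ← Real.rpow_natCast, ← Real.rpow_natCast, ← Real.rpow_mul hT0.le,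
      ← Real.rpow_mul hT0.le, ← Real.rpow_add hT0]
    rw [show b * ((2:ℕ):ℝ) + (-b + a) * ((2:ℕ):ℝ) = 2 * a by push_cast; ring]
    ring
  have hHh : Real.exp (-(H ^ 2 * h ^ 2 / 16)) = Real.exp (-((h ^ 2 / 16) * T ^ (2 * b))) := by
    congr 1
    rw [hH, ← Real.rpow_natCast (T ^ b), ← Real.rpow_mul hT0.le]
    rw [show b * ((2:ℕ):ℝ) = 2 * b by push_cast; ring]
    ring
  rw [hgq, hHh]
  have e1 := Real.exp_pos (-(1 / 4 * T ^ (2 * a)))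
  have e2 := Real.exp_pos (-((h ^ 2 / 16) * T ^ (2 * b)))
  have e3 : A * (Real.exp (-(1 / 4 * T ^ (2 * a))) + Lam * Real.exp (-((h ^ 2 / 16) * T ^ (2 * b)))) ≤
      (K * T ^ k) * (Real.exp (-(1 / 4 * T ^ (2 * a))) + Lam * Real.exp (-((h ^ 2 / 16) * T ^ (2 * b)))) := by
    gcongr
  refine e3.trans ?_
  have e4 : (K * T ^ k) * (Real.exp (-(1 / 4 * T ^ (2 * a))) + Lam * Real.exp (-((h ^ 2 / 16) * T ^ (2 * b)))) =
      ((2 * K) * (T ^ k * Real.exp (-(1 / 4 * T ^ (2 * a))))) / 2 +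
      ((2 * K * Lam) * (T ^ k * Real.exp (-((h ^ 2 / 16) * T ^ (2 * b))))) / 2 := by ring
  rw [e4]
  linarith

set_option maxHeartbeats 4000000 in
theorem ap_window (q : ℕ) (hq : 2 ≤ q) (α : ℝ) (hα : 0 < α) (e : ℝ) (he0 : 0 < e) (he1 : e ≤ 1 / 4) :
    ∃ c : ℝ, 0 < c ∧ ∀ᶠ T : ℝ in atTop, ∀ τ : ℝ, T ≤ τ → τ ≤ 3 * T →
      ∀ β : ℝ, c * Real.log T ^ (((q:ℝ) / 2) ^ 2) ≤
        α * ∑ k ∈ Kw α β τ (T ^ (1 / 2 + e + e / 64)),
          ‖zl (α * k + β)‖ ^ q * gw τ (T ^ (1 / 2 + e)) (α * k + β) := by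
  obtain ⟨κ, hκdef⟩ : ∃ κ : ℝ, κ = (q:ℝ) / 2 := ⟨_, rfl⟩
  have hqr : (2:ℝ) ≤ q := by exact_mod_cast hq
  have hκ : 1 ≤ κ := by rw [hκdef]; linarith
  have hκ0 : 0 ≤ κ := by linarith
  obtain ⟨J, hJ⟩ := exists_nat_ge κ
  obtain ⟨CU, hCU, hUev⟩ := U_upper (κ := κ) (by linarith)
  have hLam := Lam_ge_one
  have hqpos : (0:ℝ) < (q:ℝ) ^ (κ ^ 2) := by positivity
  obtain ⟨s, hs, hgam⟩ := gam_all hκ0 α hα
  obtain ⟨P, hPdef⟩ : ∃ P : ℕ, P = ∏ p ∈ s, p := ⟨_, rfl⟩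
  rw [← hPdef] at hgam
  have hP : 1 ≤ P := by
    rw [hPdef]
    exact Nat.pos_of_ne_zero (prod_ne_zero_iff.mpr fun p hp => (hs p hp).ne_zero)
  have hPr : (1:ℝ) ≤ P := by exact_mod_cast hP
  obtain ⟨cS, hcS, hSev⟩ := SP_lower hκ s hs
  rw [← hPdef] at hSev
  obtain ⟨c₂, hc₂⟩ : ∃ c₂ : ℝ, c₂ = cS / (CU * (q:ℝ) ^ (κ ^ 2)) := ⟨_, rfl⟩
  have hc₂pos : 0 < c₂ := by rw [hc₂]; positivity
  obtain ⟨ε, hεdef⟩ : ∃ ε : ℝ, ε = c₂ / 4 := ⟨_, rfl⟩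
  have hεpos : 0 < ε := by rw [hεdef]; positivity
  obtain ⟨μ, hμdef⟩ : ∃ μ : ℝ, μ = c₂ / (8 * (1 + ε)) := ⟨_, rfl⟩
  have hμpos : 0 < μ := by rw [hμdef]; positivity
  obtain ⟨Γ, hΓ0, hΓsum, hΓev⟩ := hgam ε hεpos
  obtain ⟨C, hC1, hC4⟩ := dv_small (κ := (q:ℝ) / 2 + 1) (by positivity) (e / 8) (by positivity)
  have hC0 : 0 ≤ C := by linarith
  -- the exponents
  obtain ⟨h, hh⟩ : ∃ h : ℝ, h = 2 * Real.pi / α := ⟨_, rfl⟩
  have hh0 : 0 < h := by rw [hh]; positivity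
  obtain ⟨a, ha⟩ : ∃ a : ℝ, a = e / 64 := ⟨_, rfl⟩
  have hapos : 0 < a := by rw [ha]; positivity
  have ha1 : a ≤ 1 / 256 := by rw [ha]; linarith
  obtain ⟨b, hb⟩ : ∃ b : ℝ, b = 1 / 2 + e := ⟨_, rfl⟩
  have hb0 : 1 / 2 < b := by rw [hb]; linarith
  have hb1 : b ≤ 3 / 4 := by rw [hb]; linarith
  obtain ⟨σ, hσ⟩ : ∃ σ : ℝ, σ = 1 / 2 - e / 8 := ⟨_, rfl⟩
  obtain ⟨L, hL⟩ : ∃ L : ℕ, L = q * (q + J + 1) + J + 2 := ⟨_, rfl⟩
  have hL0 : (0:ℝ) < L := by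
    have : 0 < L := by omega
    exact_mod_cast this
  obtain ⟨ν, hν⟩ : ∃ ν : ℝ, ν = a / L := ⟨_, rfl⟩
  have hνpos : 0 < ν := by rw [hν]; positivity
  have hνL : ν * L = a := by rw [hν]; field_simp
  obtain ⟨k, hk⟩ : ∃ k : ℕ, k = 2 * (q + 3) + 1 := ⟨_, rfl⟩
  obtain ⟨KB, hKB⟩ : ∃ KB : ℝ, KB = (10 * (P:ℝ)) ^ (q + 3) := ⟨_, rfl⟩
  have hKB0 : 0 < KB := by rw [hKB]; positivity
  obtain ⟨CM, hCM⟩ : ∃ CM : ℝ, CM = 2 * ((20 * (P:ℝ) / a + 1) / h + 1) + 1 := ⟨_, rfl⟩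
  have hCM0 : 0 ≤ CM := by rw [hCM]; positivity
  obtain ⟨KW, hKW⟩ : ∃ KW : ℝ, KW = 4 * C * CM * (90 * (P:ℝ) + 1) := ⟨_, rfl⟩
  have hKW0 : 0 ≤ KW := by rw [hKW]; positivity
  refine ⟨(1 / 4) * cS * ν ^ (κ ^ 2) / ((μ⁻¹) ^ (q - 1) * P ^ q), by positivity, ?_⟩
  -- eventual facts
  have ev1 : ∀ᶠ T : ℝ in atTop, cS * (ν * Real.log T) ^ (κ ^ 2) ≤ SP κ P ⌊T ^ ν⌋₊ := by
    have h1 : Tendsto (fun T : ℝ => ν * Real.log T) atTop atTop :=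
      Real.tendsto_log_atTop.const_mul_atTop hνpos
    filter_upwards [h1.eventually hSev, eventually_gt_atTop 0] with T hT hT0
    rw [Real.rpow_def_of_pos hT0, mul_comm (Real.log T)]
    exact hT
  have ev2 : ∀ᶠ T : ℝ in atTop, ∑ v ∈ Icc 1 ⌊(T ^ ν) ^ q⌋₊, dv κ v ^ 2 / v ≤
      CU * ((q:ℝ) ^ (κ ^ 2) * (ν * Real.log T) ^ (κ ^ 2)) := by
    have h1 : Tendsto (fun T : ℝ => (q * ν) * Real.log T) atTop atTop :=
      Real.tendsto_log_atTop.const_mul_atTop (by positivity)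
    filter_upwards [h1.eventually hUev, eventually_gt_atTop 1] with T hT hT1
    have hT0 : 0 < T := by linarith
    have hlog : 0 < Real.log T := Real.log_pos hT1
    have e1 : (T ^ ν) ^ q = Real.exp ((q * ν) * Real.log T) := by
      rw [← Real.rpow_natCast, ← Real.rpow_mul hT0.le, Real.rpow_def_of_pos hT0]
      congr 1; ring
    rw [e1, ← Real.mul_rpow (by positivity) (by positivity), ← mul_assoc (q:ℝ)]
    exact hT
  have ev3 : ∀ᶠ T : ℝ in atTop, ∀ m : ℤ, m ≠ 0 → ∀ a' b' : ℕ, 1 ≤ a' → 1 ≤ b' → a'.Coprime b' →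
      a'.Coprime P → b'.Coprime P → |fr α m - Real.log a' + Real.log b'| < T ^ (-b + a) →
      dv κ a' * dv κ b' * (Real.sqrt a')⁻¹ * (Real.sqrt b')⁻¹ ≤ Γ m := by
    have h1 : Tendsto (fun T : ℝ => T ^ (-b + a)) atTop (𝓝[>] 0) := by
      rw [tendsto_nhdsWithin_iff]
      refine ⟨?_, ?_⟩
      · rw [show -b + a = -(b - a) by ring]
        exact tendsto_rpow_neg_atTop (by linarith)
      · filter_upwards [eventually_gt_atTop 0] with T hT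
        exact Real.rpow_pos_of_pos hT _
    exact h1.eventually hΓev
  have ev4 := ev_small k (1 / 4) (2 * a) (2 * KB) (by norm_num) (by positivity)
  have ev5 := ev_small k (h ^ 2 / 16) (2 * b) (2 * KB * Lam) (by positivity) (by linarith)
  have ev6 := ev_small k (1 / 2) (2 * a) (3 * KB) (by norm_num) (by positivity)
  have ev7 := ev_small k (1 / 4) (2 * a) (2 * (2 * μ)) (by norm_num) (by positivity)
  have ev8 := ev_small k (h ^ 2 / 16) (2 * b) (2 * (2 * μ) * Lam) (by positivity) (by linarith)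
  have ev9 := ev_small 0 (h ^ 2 / 16) (2 * b) Lam (by positivity) (by linarith)
  have ev10 := ev_pow KW (3 * e / 32) (by positivity)
  have ev11 := ev_pow (2 * μ * KW) (3 * e / 32) (by positivity)
  have ev12 := ev_pow (2 * (1575 * Real.sqrt 2) * P) (1 / 2 - a) (by linarith)
  have ev13 := ev_rpow_ge 6 (1 / 16) (by norm_num)
  have ev14 := ev_rpow_ge (16 / h ^ 2) (2 * b) (by linarith)
  have ev15 := ev_log_rpow_ge 24 (cS * ν ^ (κ ^ 2)) (κ ^ 2) (by positivity) (by positivity)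
  filter_upwards [ev1, ev2, ev3, ev4, ev5, ev6, ev7, ev8, ev9, ev10, ev11, ev12, ev13, ev14, ev15,
    eventually_ge_atTop 10] with T h1 h2 h3 h4 h5 h6 h7 h8 h9 h10 h11 h12 h13 h14 h15 hT τ hτ1 hτ2 β
  have hT0 : 0 < T := by linarith
  have hT1 : 1 ≤ T := by linarith
  have hlog : 0 < Real.log T := Real.log_pos (by linarith)
  obtain ⟨N, hNdef⟩ : ∃ N : ℝ, N = T ^ ν := ⟨_, rfl⟩
  have hN1 : 1 ≤ N := by rw [hNdef]; exact Real.one_le_rpow hT1 hνpos.le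
  obtain ⟨X₀, hX₀⟩ : ∃ X₀ : ℕ, X₀ = ⌈3 * τ⌉₊ := ⟨_, rfl⟩
  have hX3 : 3 * τ ≤ X₀ := by rw [hX₀]; exact Nat.le_ceil _
  have hX4 : (X₀:ℝ) ≤ 3 * τ + 1 := by
    rw [hX₀]
    exact (Nat.ceil_lt_add_one (by linarith)).le
  have hXT : (X₀:ℝ) ≤ 10 * T := by linarith
  have hX1 : (1:ℝ) ≤ X₀ := by linarith
  have hTa1 : 1 ≤ T ^ a := Real.one_le_rpow hT1 hapos.le
  have hpowN : ∀ j : ℕ, j ≤ L → N ^ j ≤ T ^ a := by
    intro j hj
    rw [hNdef, ← Real.rpow_natCast, ← Real.rpow_mul hT0.le, ← hνL]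
    apply Real.rpow_le_rpow_of_exponent_le hT1
    have : (j:ℝ) ≤ L := by exact_mod_cast hj
    gcongr
  have hqL : q ≤ q * (q + J + 1) := Nat.le_mul_of_pos_right q (by omega)
  have hNq : N ^ q ≤ T ^ a := hpowN q (by omega)
  have hTaT : T ^ a ≤ T := by
    calc T ^ a ≤ T ^ (1:ℝ) := Real.rpow_le_rpow_of_exponent_le hT1 (by linarith)
      _ = T := Real.rpow_one T
  have hNT : N ≤ T := by
    have h := hpowN 1 (by omega)
    rw [pow_one] at h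
    exact h.trans hTaT
  have hNJ1 : N ^ (J + 1) ≤ T ^ a := hpowN (J + 1) (by omega)
  have hNJ : N ^ (q - 2) * N ^ (J + 1) ≤ T ^ a := by
    rw [← pow_add]
    apply hpowN
    omega
  have hNq2 : N ^ (q - 2) ≤ T ^ a := hpowN (q - 2) (by omega)
  have hNqq : (N ^ q) ^ (q + J + 1) ≤ T ^ a := by
    rw [← pow_mul]
    exact hpowN _ (by omega)
  obtain ⟨H, hHdef⟩ : ∃ H : ℝ, H = T ^ b := ⟨_, rfl⟩
  have hH : 0 < H := by rw [hHdef]; positivity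
  obtain ⟨R, hRdef⟩ : ∃ R : ℝ, R = T ^ (b + a) := ⟨_, rfl⟩
  have hR : 0 < R := by rw [hRdef]; positivity
  obtain ⟨ρ, hρdef⟩ : ∃ ρ : ℝ, ρ = T ^ (-b + a) := ⟨_, rfl⟩
  have hρ0 : 0 < ρ := by rw [hρdef]; positivity
  obtain ⟨Ω, hΩdef⟩ : ∃ Ω : ℝ, Ω = Real.log T / 8 := ⟨_, rfl⟩
  have hexpΩ : Real.exp Ω = T ^ (1 / 8 : ℝ) := by
    rw [hΩdef, Real.rpow_def_of_pos hT0]
    congr 1; ring
  have he3 : Real.exp 1 ≤ 3 := by have := Real.exp_one_lt_d9; linarith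
  obtain ⟨Z, hZdef⟩ : ∃ Z : ℝ, Z = N ^ q * Real.exp (Ω + 1) := ⟨_, rfl⟩
  have hZpos : 0 < Z := by rw [hZdef]; positivity
  have hT16 : T ^ a ≤ T ^ (1 / 16 : ℝ) := Real.rpow_le_rpow_of_exponent_le hT1 (by linarith)
  have hZ1 : Z ≤ 3 * T ^ (3 / 16 : ℝ) := by
    rw [hZdef, Real.exp_add, hexpΩ]
    calc _ ≤ T ^ (1 / 16 : ℝ) * (T ^ (1 / 8 : ℝ) * 3) := by
          gcongr
          exact hNq.trans hT16
      _ = 3 * (T ^ (1 / 16 : ℝ) * T ^ (1 / 8 : ℝ)) := by ring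
      _ = _ := by rw [← Real.rpow_add hT0]; norm_num
  have hT6 : 6 * T ^ (1 / 4 : ℝ) ≤ T ^ (5 / 16 : ℝ) := by
    calc 6 * T ^ (1 / 4 : ℝ) ≤ T ^ (1 / 16 : ℝ) * T ^ (1 / 4 : ℝ) := by gcongr
      _ = _ := by rw [← Real.rpow_add hT0]; norm_num
  have hρT : ρ ≤ T ^ (-(5 / 16) : ℝ) := by
    rw [hρdef]
    exact Real.rpow_le_rpow_of_exponent_le hT1 (by linarith)
  have hZX : Z ≤ X₀ := by
    have h1 : T ^ (3 / 16 : ℝ) ≤ T := by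
      calc T ^ (3 / 16 : ℝ) ≤ T ^ (1:ℝ) := Real.rpow_le_rpow_of_exponent_le hT1 (by norm_num)
        _ = T := Real.rpow_one T
    linarith
  have hZY : Z * N ^ q ≤ 3 * T ^ (1 / 4 : ℝ) := by
    calc Z * N ^ q ≤ (3 * T ^ (3 / 16 : ℝ)) * T ^ (1 / 16 : ℝ) := by
          gcongr
          exact hNq.trans hT16
      _ = 3 * (T ^ (3 / 16 : ℝ) * T ^ (1 / 16 : ℝ)) := by ring
      _ = _ := by rw [← Real.rpow_add hT0]; norm_num
  have hρ2 : 2 * ρ ≤ 1 / (Z * N ^ q) := by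
    rw [le_div_iff₀ (by positivity)]
    calc 2 * ρ * (Z * N ^ q) ≤ 2 * T ^ (-(5 / 16) : ℝ) * (3 * T ^ (1 / 4 : ℝ)) := by gcongr
      _ = (6 * T ^ (1 / 4 : ℝ)) * T ^ (-(5 / 16) : ℝ) := by ring
      _ ≤ T ^ (5 / 16 : ℝ) * T ^ (-(5 / 16) : ℝ) := by gcongr
      _ = 1 := by rw [← Real.rpow_add hT0]; norm_num
  have hρ1 : ρ ≤ 1 / 2 := by
    have h1 : (1:ℝ) ≤ T ^ (1 / 4 : ℝ) := Real.one_le_rpow hT1 (by norm_num)
    have h2 : T ^ (-(5 / 16) : ℝ) * T ^ (5 / 16 : ℝ) = 1 := by rw [← Real.rpow_add hT0]; norm_num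
    have h3 : 0 < T ^ (-(5 / 16) : ℝ) := by positivity
    nlinarith
  have hΩ : N ^ q * Real.exp 1 ≤ Real.exp Ω := by
    rw [hexpΩ]
    calc N ^ q * Real.exp 1 ≤ T ^ (1 / 16 : ℝ) * T ^ (1 / 16 : ℝ) := by
          refine mul_le_mul (hNq.trans hT16) (by linarith) (Real.exp_pos 1).le (by positivity)
      _ = T ^ (1 / 8 : ℝ) := by rw [← Real.rpow_add hT0]; norm_num
  have hNX : N ^ q ≤ X₀ := by linarith
  obtain ⟨Xf, hXfdef⟩ : ∃ Xf : ℝ, Xf = N ^ (q - 2) * (P * (X₀:ℝ)) := ⟨_, rfl⟩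
  have hXf1 : 1 ≤ Xf := by
    rw [hXfdef]
    have h1 : 1 ≤ N ^ (q - 2) := one_le_pow₀ hN1
    have h2 : 1 ≤ (P:ℝ) * X₀ := one_le_mul_of_one_le_of_one_le hPr hX1
    exact one_le_mul_of_one_le_of_one_le h1 h2
  have hXfT : Xf ≤ 10 * P * T ^ (1 + a) := by
    rw [hXfdef, Real.rpow_add hT0, Real.rpow_one]
    calc N ^ (q - 2) * (P * (X₀:ℝ)) ≤ T ^ a * (P * (10 * T)) := by gcongr
      _ = _ := by ring
  obtain ⟨M, hMdef⟩ : ∃ M : ℕ, M = ⌈(Real.log Xf + 1) / h⌉₊ := ⟨_, rfl⟩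
  obtain ⟨hM1, hM2⟩ := M_bound hapos (by linarith) hPr hT1 hh0 hXf1 hXfT hMdef
  rw [← hCM] at hM2
  have hHh : H ^ 2 * h ^ 2 / 16 = (h ^ 2 / 16) * T ^ (2 * b) := by
    rw [hHdef, ← Real.rpow_natCast (T ^ b), ← Real.rpow_mul hT0.le]
    rw [show b * ((2:ℕ):ℝ) = 2 * b by push_cast; ring]
    ring
  have hy : 1 ≤ H ^ 2 * h ^ 2 / 16 := by
    rw [hHh]
    calc (1:ℝ) = (h ^ 2 / 16) * (16 / h ^ 2) := by field_simp
      _ ≤ _ := by gcongr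
  have hy2 : Lam * Real.exp (-(H ^ 2 * h ^ 2 / 16)) ≤ 1 := by
    rw [hHh]
    rw [pow_zero, one_mul] at h9
    exact h9
  have hRT : R ≤ T / 4 := by
    rw [hRdef, le_div_iff₀ (by norm_num)]
    calc T ^ (b + a) * 4 ≤ T ^ (b + a) * T ^ (1 / 16 : ℝ) := by gcongr; linarith
      _ = T ^ (b + a + 1 / 16) := by rw [← Real.rpow_add hT0]
      _ ≤ T ^ (1:ℝ) := Real.rpow_le_rpow_of_exponent_le hT1 (by linarith)
      _ = T := Real.rpow_one T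
  obtain ⟨e₁, he₁def⟩ : ∃ e₁ : ℝ, e₁ = 1575 * (Real.sqrt 2 * T ^ (-(1 / 2) : ℝ)) := ⟨_, rfl⟩
  have he₁0 : 0 ≤ e₁ := by rw [he₁def]; positivity
  have happ : ∀ t ∈ Set.Ioc (τ - R) (τ + R), ‖zl t - zX X₀ t‖ ≤ e₁ := by
    intro t ht
    have ht1 : T / 2 ≤ t := by linarith [ht.1]
    have ht2 : t ≤ τ + T / 4 := by linarith [ht.2]
    have ht3 : τ - T / 4 ≤ t := by linarith [ht.1]
    have h := Pool.Agent.Y210.R9.zap0 t X₀ (by linarith) (by linarith) (by linarith)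
    unfold zl
    rw [zX_eq]
    refine h.trans ?_
    rw [he₁def]
    have h5 : t ^ (-(1 / 2) : ℝ) ≤ (T / 2) ^ (-(1 / 2) : ℝ) :=
      Real.rpow_le_rpow_of_nonpos (by linarith) ht1 (by norm_num)
    have h6 : (T / 2) ^ (-(1 / 2) : ℝ) = Real.sqrt 2 * T ^ (-(1 / 2) : ℝ) := by
      rw [Real.div_rpow hT0.le (by norm_num), Real.rpow_neg (by norm_num : (0:ℝ) ≤ 2), div_inv_eq_mul,
        Real.sqrt_eq_rpow, mul_comm]
    rw [h6] at h5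
    gcongr
  obtain ⟨e0, he0def⟩ : ∃ e0 : ℝ, e0 = gq H ρ + Lam * Real.exp (-(H ^ 2 * h ^ 2 / 16)) := ⟨_, rfl⟩
  obtain ⟨W1, hW1⟩ : ∃ W1 : ℝ, W1 = 2 * ((2 * (M:ℝ) + 1) * (N ^ (J + 1) * (2 * C *
    (9 * ρ * Xf ^ (1 - σ) + Real.exp (-(Ω * σ)))))) := ⟨_, rfl⟩
  obtain ⟨W2, hW2⟩ : ∃ W2 : ℝ, W2 = 2 * ((2 * (M:ℝ) + 1) * ((N ^ q) ^ (q + J + 1) * (2 * C *
    (9 * ρ * Xf ^ (1 - σ) + Real.exp (-(Ω * σ)))))) := ⟨_, rfl⟩
  have hρb : ρ = T ^ (-(1 / 2 + e) + a) := by rw [hρdef, hb]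
  have hW1b : W1 ≤ KW * T ^ (-(3 * e / 32)) := by
    rw [hW1, hKW]
    exact W_bound he0 he1 ha hPr hC0 hT1 hρb hXf1 hXfT hΩdef hσ hCM0 (by positivity) hNJ1 hM2
  have hW2b : W2 ≤ KW * T ^ (-(3 * e / 32)) := by
    rw [hW2, hKW]
    exact W_bound he0 he1 ha hPr hC0 hT1 hρb hXf1 hXfT hΩdef hσ hCM0 (by positivity) hNqq hM2
  have hσ' : -(1 / 2 - e / 8) = -σ := by rw [hσ]
  rw [hσ'] at hC4
  have hcore := ap_core q hq J (by rw [← hκdef]; exact hJ) α β hα P hP N X₀ Z ρ τ H R ε e₁ μ C Ω σ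
    (by rw [hσ]; linarith) (by rw [hσ]; linarith) M hN1 hNX hZX hρ0 hρ1 hH hR.le he₁0 hμpos hC0
    (le_of_eq hZdef.symm) hρ2 hΩ (by rw [← hXfdef, ← hh]; exact hM1) (by rw [← hh]; exact hy)
    (by rw [← hh]; exact hy2) hC4 Γ hΓ0 (by
      intro m hm a' b' ha' hb' hab haP hbP hlt
      rw [← hκdef]
      rw [hρdef] at hlt
      exact h3 m hm a' b' ha' hb' hab haP hbP hlt) (hΓsum M) happ e0 W1 W2
    (by rw [← hh]; exact he0def) (by rw [← hXfdef]; exact hW1) (by rw [← hXfdef]; exact hW2)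
  rw [← hκdef, ← hXfdef] at hcore
  -- the error terms
  have hbig : Xf ^ (q + 3) * N ^ (J + 1) ≤ KB * T ^ k := by
    have e1 : Xf ≤ (10 * P) * T ^ 2 := by
      refine hXfT.trans ?_
      refine mul_le_mul_of_nonneg_left ?_ (by positivity)
      rw [← Real.rpow_natCast]
      exact Real.rpow_le_rpow_of_exponent_le hT1 (by push_cast; linarith)
    calc Xf ^ (q + 3) * N ^ (J + 1) ≤ ((10 * P) * T ^ 2) ^ (q + 3) * T := by
          gcongr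
          exact hNJ1.trans hTaT
      _ = KB * T ^ k := by rw [hKB, hk, mul_pow, ← pow_mul, pow_succ T]; ring
  have hE2 : (Xf ^ (q + 3) * N ^ (J + 1)) * e0 ≤ 1 := by
    rw [he0def]
    exact e0_bound hT1 hHdef hρdef (by positivity) hbig h4 h5
  have hRH : Real.exp (-(R ^ 2 / (2 * H ^ 2))) = Real.exp (-(1 / 2 * T ^ (2 * a))) := by
    congr 1
    rw [hHdef, hRdef, ← Real.rpow_natCast, ← Real.rpow_natCast, ← Real.rpow_mul hT0.le,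
      ← Real.rpow_mul hT0.le]
    have e1 : T ^ ((b + a) * ((2:ℕ):ℝ)) = T ^ (b * ((2:ℕ):ℝ)) * T ^ (2 * a) := by
      rw [← Real.rpow_add hT0]
      congr 1
      push_cast
      ring
    rw [e1]
    have : (0:ℝ) < T ^ (b * ((2:ℕ):ℝ)) := by positivity
    field_simp
  have hE3 : (Xf ^ (q + 3) * N ^ (J + 1)) * (3 * Real.exp (-(R ^ 2 / (2 * H ^ 2)))) ≤ 1 := by
    refine le_trans ?_ h6
    rw [hRH]
    calc _ ≤ (KB * T ^ k) * (3 * Real.exp (-(1 / 2 * T ^ (2 * a)))) := by gcongr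
      _ = _ := by ring
  have hE4 : 2 * (e₁ * (P * N ^ (q - 2) * N ^ (J + 1))) ≤ 1 := by
    refine le_trans ?_ h12
    have g3 : (P:ℝ) * N ^ (q - 2) * N ^ (J + 1) ≤ P * T ^ a := by
      rw [mul_assoc]; gcongr
    have k5 : T ^ (-(1 / 2) : ℝ) * T ^ a = T ^ (-(1 / 2 - a)) := by
      rw [← Real.rpow_add hT0]
      congr 1
      ring
    calc 2 * (e₁ * (P * N ^ (q - 2) * N ^ (J + 1))) ≤ 2 * (e₁ * (P * T ^ a)) := by gcongr
      _ = 2 * (1575 * Real.sqrt 2) * P * (T ^ (-(1 / 2) : ℝ) * T ^ a) := by rw [he₁def]; ring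
      _ = _ := by rw [k5]
  have hE7 : μ * (2 * ((N ^ q) ^ (2 * (q + J + 1)) * e0)) ≤ 1 := by
    have e1 : (2 * μ) * (N ^ q) ^ (2 * (q + J + 1)) ≤ (2 * μ) * T ^ k := by
      refine mul_le_mul_of_nonneg_left ?_ (by positivity)
      calc (N ^ q) ^ (2 * (q + J + 1)) = ((N ^ q) ^ (q + J + 1)) ^ 2 := by rw [← pow_mul]; ring
        _ ≤ T ^ 2 := by
            gcongr
            exact hNqq.trans hTaT
        _ ≤ T ^ k := pow_le_pow_right₀ hT1 (by omega)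
    have e2 := e0_bound hT1 hHdef hρdef (by positivity) e1 h7 h8
    rw [he0def]
    calc _ = (2 * μ) * (N ^ q) ^ (2 * (q + J + 1)) * (gq H ρ + Lam * Real.exp (-(H ^ 2 * h ^ 2 / 16))) := by ring
      _ ≤ 1 := e2
  have hE8 : μ * (2 * W2) ≤ 1 := by
    refine le_trans ?_ h11
    calc μ * (2 * W2) ≤ μ * (2 * (KW * T ^ (-(3 * e / 32)))) := by gcongr
      _ = _ := by ring
  -- conclusion
  obtain ⟨S, hSdef⟩ : ∃ S : ℝ, S = SP κ P ⌊N⌋₊ := ⟨_, rfl⟩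
  obtain ⟨U, hUdef⟩ : ∃ U : ℝ, U = ∑ v ∈ Icc 1 ⌊N ^ q⌋₊, dv κ v ^ 2 / (v:ℝ) := ⟨_, rfl⟩
  rw [← hNdef] at h1 h2
  rw [← hSdef] at h1 hcore
  rw [← hUdef] at h2 hcore
  have hU0 : 0 ≤ U := by rw [hUdef]; exact sum_nonneg fun v _ => by positivity
  obtain ⟨Lg, hLg⟩ : ∃ Lg : ℝ, Lg = (ν * Real.log T) ^ (κ ^ 2) := ⟨_, rfl⟩
  rw [← hLg] at h1 h2
  have hLg0 : 0 ≤ Lg := by rw [hLg]; positivity
  have hcU : c₂ * U ≤ S := by
    calc c₂ * U ≤ c₂ * (CU * ((q:ℝ) ^ (κ ^ 2) * Lg)) := by gcongr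
      _ = cS * Lg := by rw [hc₂]; field_simp
      _ ≤ S := h1
  have hLg2 : Lg = ν ^ (κ ^ 2) * Real.log T ^ (κ ^ 2) := by
    rw [hLg, Real.mul_rpow hνpos.le hlog.le]
  have hSbig : 24 ≤ S := by
    calc (24:ℝ) ≤ cS * ν ^ (κ ^ 2) * Real.log T ^ (κ ^ 2) := h15
      _ = cS * Lg := by rw [hLg2]; ring
      _ ≤ S := h1
  have hεU : ε * U ≤ S / 4 := by
    rw [hεdef]
    calc c₂ / 4 * U = (c₂ * U) / 4 := by ring
      _ ≤ S / 4 := by gcongr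
  have hμU : μ * (2 * (1 + ε) * U) ≤ S / 4 := by
    rw [hμdef]
    calc c₂ / (8 * (1 + ε)) * (2 * (1 + ε) * U) = (c₂ * U) / 4 := by
          field_simp
          ring
      _ ≤ S / 4 := by gcongr
  rw [show (1 / 2 + e + e / 64 : ℝ) = b + a by rw [hb, ha], ← hb, ← hRdef, ← hHdef]
  obtain ⟨Jn, hJn⟩ : ∃ Jn : ℝ, Jn = α * ∑ k ∈ Kw α β τ R, ‖zl (α * k + β)‖ ^ q * gw τ H (α * k + β) := ⟨_, rfl⟩
  rw [← hJn] at hcore
  rw [← hJn, ← hκdef]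
  have hden : 0 < (μ⁻¹) ^ (q - 1) * (P:ℝ) ^ q := by positivity
  have hfin : S / 4 ≤ (μ⁻¹) ^ (q - 1) * P ^ q * Jn := by
    have e1 : μ * (2 * (1 + ε) * U + 2 * (W2 + (N ^ q) ^ (2 * (q + J + 1)) * e0)) =
      μ * (2 * (1 + ε) * U) + μ * (2 * W2) + μ * (2 * ((N ^ q) ^ (2 * (q + J + 1)) * e0)) := by ring
    rw [e1] at hcore
    exact fin_arith' hcore hεU (hW1b.trans h10) hE2 hE3 hE4 hE8 hE7 hμU hSbig
  rw [div_mul_eq_mul_div, div_le_iff₀ hden]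
  calc (1 / 4) * cS * ν ^ (κ ^ 2) * Real.log T ^ (κ ^ 2) = (cS * Lg) / 4 := by
        rw [hLg2]; ring
    _ ≤ S / 4 := by gcongr
    _ ≤ (μ⁻¹) ^ (q - 1) * P ^ q * Jn := hfin
    _ = _ := by ring

end

end Pool.Agent.R311.AP
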