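import Pool.Agent.R311.AP.V

set_option autoImplicit false

/-! Lower bounds for discrete moments over arithmetic progressions. -/

namespace Pool.Agent.R311.AP

open Finset MeasureTheory Filter Topology
open Pool.Agent.H306R2 Pool.Agent.R311.BS

noncomputable section

/-- the indices of the progression in `[T, T + H]` -/
def KI (α β T H : ℝ) : Finset ℤ := Icc ⌈(T - β) / α⌉ ⌊(T + H - β) / α⌋

lemma mem_KI {α β T H : ℝ} (hα : 0 < α) (k : ℤ) :
    k ∈ KI α β T H ↔ T ≤ α * k + β ∧ α * k + β ≤ T + H := by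
  unfold KI
  rw [mem_Icc, Int.ceil_le, Int.le_floor, div_le_iff₀ hα, le_div_iff₀ hα]
  constructor
  · rintro ⟨h1, h2⟩
    constructor <;> linarith
  · rintro ⟨h1, h2⟩
    constructor <;> linarith

lemma gw_int_le (H t a b : ℝ) (hH : 0 < H) : ∫ τ in Set.Icc a b, gw τ H t ≤ 1 := by
  have e : ∀ τ, gw τ H t = gw t H τ := fun τ => gw_symm τ H t
  simp only [e]
  rw [← gw_integral t H hH]
  exact setIntegral_le_integral (gw_integrable t H hH)
    (Eventually.of_forall fun τ => gw_nonneg t H τ hH)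

theorem ap_averaging (K : Finset ℤ) (F : ℤ → ℝ) (hF : ∀ k, 0 ≤ F k) (t : ℤ → ℝ) (H a b J : ℝ)
    (hH : 0 < H) (hab : a ≤ b) (h : ∀ τ ∈ Set.Icc a b, J ≤ ∑ k ∈ K, F k * gw τ H (t k)) :
    (b - a) * J ≤ ∑ k ∈ K, F k := by
  have hc : ∀ k, Continuous fun τ => gw τ H (t k) := fun k => by
    have e : (fun τ => gw τ H (t k)) = fun τ => gw (t k) H τ := by
      funext τ; exact gw_symm τ H (t k)
    rw [e]
    exact gw_continuous _ _
  have h1 : ∫ _τ in Set.Icc a b, J ≤ ∫ τ in Set.Icc a b, ∑ k ∈ K, F k * gw τ H (t k) := by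
    refine setIntegral_mono_on ?_ ?_ measurableSet_Icc h
    · exact continuous_const.integrableOn_Icc
    · refine Continuous.integrableOn_Icc ?_
      exact continuous_finsetSum _ fun k _ => continuous_const.mul (hc k)
  rw [setIntegral_const, Real.volume_real_Icc_of_le hab, smul_eq_mul] at h1
  refine h1.trans ?_
  have hI : ∀ k ∈ K, Integrable (fun τ => F k * gw τ H (t k)) (volume.restrict (Set.Icc a b)) := fun k _ => by
    have : IntegrableOn (fun τ => F k * gw τ H (t k)) (Set.Icc a b) :=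
      (continuous_const.mul (hc k)).integrableOn_Icc
    exact this
  rw [integral_finsetSum _ hI]
  refine sum_le_sum fun k _ => ?_
  rw [integral_const_mul]
  have := gw_int_le H (t k) a b hH
  have := hF k
  nlinarith

theorem ap_bound (q : ℕ) (hq : 2 ≤ q) (α : ℝ) (hα : 0 < α) (ε : ℝ) (hε : 0 < ε) :
    ∃ c : ℝ, 0 < c ∧ ∀ᶠ T : ℝ in atTop, ∀ H : ℝ, T ^ (1 / 2 + ε) ≤ H → H ≤ T →
      ∀ β : ℝ, c * H * Real.log T ^ (((q:ℝ) / 2) ^ 2) ≤ ∑ k ∈ KI α β T H, ‖zl (α * k + β)‖ ^ q := by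
  obtain ⟨e, he⟩ : ∃ e : ℝ, e = min (ε / 2) (1 / 4) := ⟨_, rfl⟩
  have he0 : 0 < e := by rw [he]; exact lt_min (by positivity) (by norm_num)
  have he1 : e ≤ 1 / 4 := by rw [he]; exact min_le_right _ _
  have he2 : e ≤ ε / 2 := by rw [he]; exact min_le_left _ _
  obtain ⟨c, hc, h⟩ := ap_window q hq α hα e he0 he1
  refine ⟨c / (2 * α), by positivity, ?_⟩
  filter_upwards [h, ev_rpow_ge 4 (ε / 4) (by positivity), eventually_ge_atTop 1] with T hT h4 hT1 H hH1 hH2 β
  have hT0 : 0 < T := by linarith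
  have hlog : 0 ≤ Real.log T := Real.log_nonneg hT1
  obtain ⟨R, hR⟩ : ∃ R : ℝ, R = T ^ (1 / 2 + e + e / 64) := ⟨_, rfl⟩
  have hR0 : 0 < R := by rw [hR]; positivity
  have hRH : 4 * R ≤ H := by
    refine le_trans ?_ hH1
    calc 4 * R ≤ T ^ (ε / 4) * T ^ (1 / 2 + e + e / 64) := by rw [hR]; gcongr
      _ = T ^ (ε / 4 + (1 / 2 + e + e / 64)) := by rw [← Real.rpow_add hT0]
      _ ≤ T ^ (1 / 2 + ε) := Real.rpow_le_rpow_of_exponent_le hT1 (by linarith)
  have hH0 : 0 < H := by linarith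
  rw [← hR] at hT
  have hHw : 0 < T ^ (1 / 2 + e) := by positivity
  have hav := ap_averaging (KI α β T H) (fun k => α * ‖zl (α * k + β)‖ ^ q) (fun k => by positivity)
    (fun k => α * k + β) (T ^ (1 / 2 + e)) (T + R) (T + H - R)
    (c * Real.log T ^ (((q:ℝ) / 2) ^ 2)) hHw (by linarith) (by
      intro τ hτ
      refine (hT τ (by linarith [hτ.1]) (by linarith [hτ.2]) β).trans ?_
      rw [mul_sum]
      have hsub : Kw α β τ R ⊆ KI α β T H := by
        intro k hk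
        rw [mem_Kw hα] at hk
        rw [mem_KI hα]
        have h1 := hk.1
        have h2 := hk.2
        have h3 := hτ.1
        have h4 := hτ.2
        constructor <;> linarith
      refine (sum_le_sum_of_subset_of_nonneg hsub fun k _ _ => ?_).trans (le_of_eq ?_)
      · have := gw_nonneg τ (T ^ (1 / 2 + e)) (α * k + β) hHw
        positivity
      · refine sum_congr rfl fun k _ => ?_
        ring)
  rw [← mul_sum] at hav
  have hp : 0 ≤ c * Real.log T ^ (((q:ℝ) / 2) ^ 2) := by positivity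
  have h5 : (H / 2) * (c * Real.log T ^ (((q:ℝ) / 2) ^ 2)) ≤ α * ∑ k ∈ KI α β T H, ‖zl (α * k + β)‖ ^ q := by
    refine le_trans ?_ hav
    gcongr
    linarith
  calc c / (2 * α) * H * Real.log T ^ (((q:ℝ) / 2) ^ 2) =
      (1 / α) * ((H / 2) * (c * Real.log T ^ (((q:ℝ) / 2) ^ 2))) := by field_simp
    _ ≤ (1 / α) * (α * ∑ k ∈ KI α β T H, ‖zl (α * k + β)‖ ^ q) := by gcongr
    _ = _ := by field_simp

/-! ### periodic sets -/

lemma Ico_disj (α : ℝ) (hα : 0 < α) : Pairwise (Function.onFun Disjoint fun k : ℤ => Set.Ico (α * k) (α * k + α)) := by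
  intro k l hkl
  rw [Function.onFun, Set.disjoint_left]
  intro x hx hy
  have h1 : (k:ℝ) < l + 1 := by
    have : α * k < α * (l + 1) := by linarith [hx.1, hy.2]
    exact lt_of_mul_lt_mul_left this hα.le
  have h2 : (l:ℝ) < k + 1 := by
    have : α * l < α * (k + 1) := by linarith [hy.1, hx.2]
    exact lt_of_mul_lt_mul_left this hα.le
  have h3 : k < l + 1 := by exact_mod_cast h1
  have h4 : l < k + 1 := by exact_mod_cast h2
  omega

lemma Ico_cover (α : ℝ) (hα : 0 < α) : (⋃ k : ℤ, Set.Ico (α * k) (α * k + α)) = Set.univ := by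
  rw [Set.eq_univ_iff_forall]
  intro x
  rw [Set.mem_iUnion]
  refine ⟨⌊x / α⌋, ?_, ?_⟩
  · have := Int.floor_le (x / α)
    rw [le_div_iff₀ hα] at this
    linarith
  · have := Int.lt_floor_add_one (x / α)
    rw [div_lt_iff₀ hα] at this
    linarith

/-- unfolding an integral over the real line -/
lemma unfold_lint (α : ℝ) (hα : 0 < α) (f : ℝ → ENNReal) (hf : Measurable f) :
    ∫⁻ t, f t = ∫⁻ β in Set.Ico 0 α, ∑' k : ℤ, f (α * k + β) := by
  have hm : ∀ k : ℤ, AEMeasurable (fun β : ℝ => f (α * (k:ℝ) + β)) (volume.restrict (Set.Ico 0 α)) := fun k =>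
    (hf.comp (by fun_prop : Measurable fun β : ℝ => α * (k:ℝ) + β)).aemeasurable
  rw [← setLIntegral_univ, ← Ico_cover α hα, lintegral_iUnion (fun k => measurableSet_Ico) (Ico_disj α hα),
    lintegral_tsum hm]
  refine tsum_congr fun k => ?_
  have h := (measurePreserving_add_left (volume : Measure ℝ) (α * k)).setLIntegral_comp_preimage_emb
    (MeasurableEquiv.addLeft (α * (k:ℝ))).measurableEmbedding f (Set.Ico (α * k) (α * k + α))
  rw [← h]
  congr 1
  congr 1
  ext x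
  simp only [Set.mem_preimage, Set.mem_Ico]
  constructor
  · rintro ⟨h1, h2⟩
    constructor <;> linarith
  · rintro ⟨h1, h2⟩
    constructor <;> linarith

/-- from progressions to periodic sets -/
theorem periodic_of_discrete (α : ℝ) (hα : 0 < α) (F : ℝ → ℝ) (hF : Continuous F) (hF0 : ∀ t, 0 ≤ F t)
    (T H B : ℝ) (h : ∀ β : ℝ, B ≤ ∑ k ∈ KI α β T H, F (α * k + β)) (E : Set ℝ)
    (hE : MeasurableSet E) (hper : ∀ t ∈ E, ∀ k : ℤ, α * k + t ∈ E) :
    (volume (E ∩ Set.Ico 0 α)).toReal * B ≤ ∫ t in E ∩ Set.Icc T (T + H), F t := by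
  have hS : MeasurableSet (E ∩ Set.Icc T (T + H)) := hE.inter measurableSet_Icc
  have hint : IntegrableOn F (E ∩ Set.Icc T (T + H)) := hF.integrableOn_Icc.mono_set Set.inter_subset_right
  have h0 : 0 ≤ ∫ t in E ∩ Set.Icc T (T + H), F t := setIntegral_nonneg hS fun t _ => hF0 t
  have hvol : volume (E ∩ Set.Ico 0 α) ≠ ⊤ := by
    refine ((measure_mono Set.inter_subset_right).trans_lt ?_).ne
    rw [Real.volume_Ico]
    exact ENNReal.ofReal_lt_top
  rw [← ENNReal.ofReal_le_ofReal_iff h0, ENNReal.ofReal_mul ENNReal.toReal_nonneg,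
    ENNReal.ofReal_toReal hvol, ofReal_integral_eq_lintegral_ofReal hint (Eventually.of_forall fun t => hF0 t),
    ← lintegral_indicator hS]
  set f : ℝ → ENNReal := (E ∩ Set.Icc T (T + H)).indicator fun t => ENNReal.ofReal (F t) with hf
  have hfm : Measurable f := by
    rw [hf]
    exact (ENNReal.continuous_ofReal.comp hF).measurable.indicator hS
  rw [unfold_lint α hα f hfm]
  calc volume (E ∩ Set.Ico 0 α) * ENNReal.ofReal B = ∫⁻ _β in E ∩ Set.Ico 0 α, ENNReal.ofReal B := by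
        rw [setLIntegral_const, mul_comm]
    _ ≤ ∫⁻ β in E ∩ Set.Ico 0 α, ∑' k : ℤ, f (α * k + β) := by
        refine setLIntegral_mono' (hE.inter measurableSet_Ico) fun β hβ => ?_
        calc ENNReal.ofReal B ≤ ENNReal.ofReal (∑ k ∈ KI α β T H, F (α * k + β)) :=
              ENNReal.ofReal_le_ofReal (h β)
          _ = ∑ k ∈ KI α β T H, ENNReal.ofReal (F (α * k + β)) :=
              ENNReal.ofReal_sum_of_nonneg fun k _ => hF0 _
          _ = ∑ k ∈ KI α β T H, f (α * k + β) := by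
              refine sum_congr rfl fun k hk => ?_
              rw [hf, Set.indicator_of_mem]
              rw [mem_KI hα] at hk
              exact ⟨hper β hβ.1 k, hk.1, hk.2⟩
          _ ≤ ∑' k : ℤ, f (α * k + β) := ENNReal.sum_le_tsum _
    _ ≤ ∫⁻ β in Set.Ico 0 α, ∑' k : ℤ, f (α * k + β) := lintegral_mono_set Set.inter_subset_right

/-- the two bounds together -/
theorem main (q : ℕ) (hq : 2 ≤ q) (α : ℝ) (hα : 0 < α) (ε : ℝ) (hε : 0 < ε) :
    ∃ c : ℝ, 0 < c ∧ ∀ᶠ T : ℝ in atTop, ∀ H : ℝ, T ^ (1 / 2 + ε) ≤ H → H ≤ T →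
      (∀ β : ℝ, c * H * Real.log T ^ ((q:ℝ) ^ 2 / 4) ≤
        ∑ k ∈ Icc ⌈(T - β) / α⌉ ⌊(T + H - β) / α⌋,
          ‖riemannZeta (1 / 2 + ((α * k + β : ℝ) : ℂ) * Complex.I)‖ ^ q) ∧
      ∀ E : Set ℝ, MeasurableSet E → (∀ t ∈ E, ∀ k : ℤ, α * k + t ∈ E) →
        (volume (E ∩ Set.Ico 0 α)).toReal * (c * H * Real.log T ^ ((q:ℝ) ^ 2 / 4)) ≤
          ∫ t in E ∩ Set.Icc T (T + H), ‖riemannZeta (1 / 2 + (t : ℂ) * Complex.I)‖ ^ q := by
  obtain ⟨c, hc, h⟩ := ap_bound q hq α hα ε hε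
  refine ⟨c, hc, ?_⟩
  filter_upwards [h, eventually_ge_atTop 1] with T hT hT1 H hH1 hH2
  have e : ((q:ℝ) / 2) ^ 2 = (q:ℝ) ^ 2 / 4 := by ring
  rw [e] at hT
  have h1 : ∀ β : ℝ, c * H * Real.log T ^ ((q:ℝ) ^ 2 / 4) ≤ ∑ k ∈ KI α β T H, ‖zl (α * k + β)‖ ^ q :=
    fun β => hT H hH1 hH2 β
  have hH0 : 0 < H := lt_of_lt_of_le (Real.rpow_pos_of_pos (by linarith) _) hH1
  have hlog : 0 ≤ Real.log T := Real.log_nonneg hT1
  refine ⟨h1, fun E hE hper => ?_⟩
  exact periodic_of_discrete α hα (fun t => ‖zl t‖ ^ q) (zl_cont.norm.pow q) (fun t => by positivity)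
    T H _ h1 E hE hper

end

end Pool.Agent.R311.AP
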